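import Pool.Agent.DPG.Couple
import Pool.Agent.DPS.Class

namespace Pool.Agent.DPG

open Finset

/-- Nested sets without a system of distinct representatives. -/
theorem local_hall (s t : ℕ) (hst : s ≤ t) (G : ℕ → Finset (Fin t))
    (hG : ∀ a b, a ≤ b → G b ⊆ G a)
    (hno : ¬ ∃ f : Fin (s+1) → Fin t, Function.Injective f ∧ ∀ j : Fin (s+1), f j ∈ G j) :
    (∑ j ∈ range s, (G j).card) + (t - s) * (G s).card ≤ s * t := by
  classical
  rw [← Finset.all_card_le_biUnion_card_iff_exists_injective
    (fun j : Fin (s+1) => G j)] at hno
  push Not at hno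
  obtain ⟨S, hS⟩ := hno
  have hSne : S.Nonempty := by
    rw [Finset.nonempty_iff_ne_empty]
    rintro rfl
    simp at hS
  set m := S.min' hSne with hm
  have hmS : m ∈ S := Finset.min'_mem _ _
  have h1 : (G m).card ≤ (S.biUnion (fun j : Fin (s+1) => G j)).card :=
    Finset.card_le_card (Finset.subset_biUnion_of_mem (fun j : Fin (s+1) => G j) hmS)
  have h2 : S ⊆ Finset.Ici m := by
    intro x hx
    rw [Finset.mem_Ici]
    exact Finset.min'_le _ _ hx
  have h3 := Finset.card_le_card h2
  rw [Fin.card_Ici] at h3
  have hms : m.val ≤ s := by have := m.2; omega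
  have hGm : (G m.val).card ≤ s - m.val := by omega
  obtain ⟨d, hd⟩ := Nat.exists_eq_add_of_le hms
  obtain ⟨e, he⟩ := Nat.exists_eq_add_of_le hst
  set m' := m.val with hm'
  have hs1 : (∑ j ∈ range s, (G j).card) ≤ m' * t + d * d := by
    have e1 : ∑ j ∈ range s, (G j).card =
        ∑ j ∈ range m', (G j).card + ∑ j ∈ Finset.Ico m' s, (G j).card := by
      rw [Finset.range_eq_Ico, Finset.range_eq_Ico,
        Finset.sum_Ico_consecutive _ (Nat.zero_le _) hms]
    rw [e1]
    apply Nat.add_le_add
    · calc ∑ j ∈ range m', (G j).card ≤ ∑ j ∈ range m', t := by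
            apply Finset.sum_le_sum
            intro j _
            have := Finset.card_le_univ (G j)
            rwa [Fintype.card_fin] at this
        _ = m' * t := by simp
    · calc ∑ j ∈ Finset.Ico m' s, (G j).card ≤ ∑ j ∈ Finset.Ico m' s, d := by
            apply Finset.sum_le_sum
            intro j hj
            rw [Finset.mem_Ico] at hj
            have := Finset.card_le_card (hG _ _ hj.1)
            omega
        _ = d * d := by
            rw [Finset.sum_const, Nat.card_Ico, smul_eq_mul]
            congr 1
            omega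
  have hs2 : (G s).card ≤ d := by
    have := Finset.card_le_card (hG _ _ hms)
    omega
  have hte : t - s = e := by omega
  rw [hte]
  have h5 : e * (G s).card ≤ e * d := Nat.mul_le_mul_left _ hs2
  have h6 : m' * t + d * d + e * d ≤ s * t := by
    rw [he, hd]
    nlinarith [Nat.zero_le (d * m')]
  omega

/-- Averaging over permutations, real version. -/
theorem avg_perm_real {β : Type*} [Fintype β] [DecidableEq β] (φ : Finset β → ℝ)
    (S : Finset β) :
    ((Fintype.card β).choose S.card : ℝ) * ∑ σ : Equiv.Perm β, φ (S.map σ.toEmbedding) =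
      Fintype.card (Equiv.Perm β) * ∑ T ∈ powersetCard S.card univ, φ T := by
  classical
  have h1 : ∑ T ∈ powersetCard S.card (univ : Finset β), ∑ σ : Equiv.Perm β,
      φ (T.map σ.toEmbedding) =
      (Fintype.card β).choose S.card * ∑ σ : Equiv.Perm β, φ (S.map σ.toEmbedding) := by
    rw [Finset.sum_congr rfl (g := fun _ => ∑ σ : Equiv.Perm β, φ (S.map σ.toEmbedding))]
    · rw [Finset.sum_const, Finset.card_powersetCard, Finset.card_univ, nsmul_eq_mul]
    · intro T hT
      rw [Finset.mem_powersetCard] at hT
      obtain ⟨τ, rfl⟩ := DPS.exists_perm_map S T hT.2.symm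
      rw [← Equiv.sum_comp (Equiv.mulRight τ) (fun σ : Equiv.Perm β => φ (S.map σ.toEmbedding))]
      apply Finset.sum_congr rfl
      intro σ _
      rw [Finset.map_map]
      rfl
  have h2 : ∑ σ : Equiv.Perm β, ∑ T ∈ powersetCard S.card (univ : Finset β),
      φ (T.map σ.toEmbedding) =
      Fintype.card (Equiv.Perm β) * ∑ T ∈ powersetCard S.card univ, φ T := by
    rw [Finset.sum_congr rfl (g := fun _ => ∑ T ∈ powersetCard S.card univ, φ T)]
    · rw [Finset.sum_const, Finset.card_univ, nsmul_eq_mul]
    · intro σ _
      refine Finset.sum_nbij' (fun T => T.map σ.toEmbedding) (fun T => T.map σ.symm.toEmbedding)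
        ?_ ?_ ?_ ?_ ?_
      · intro T hT
        rw [Finset.mem_powersetCard] at hT ⊢
        exact ⟨Finset.subset_univ _, by rw [Finset.card_map]; exact hT.2⟩
      · intro T hT
        rw [Finset.mem_powersetCard] at hT ⊢
        exact ⟨Finset.subset_univ _, by rw [Finset.card_map]; exact hT.2⟩
      · intro T _
        ext x
        simp
      · intro T _
        ext x
        simp
      · intro T _
        rfl
  rw [← h1, ← h2, Finset.sum_comm]

/-- The transversal selected by `c`. -/
def trv {β : Type*} [DecidableEq β] {l q : ℕ} (e : Fin l × Fin q ↪ β) (c : Fin l → Fin q) :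
    Finset β := univ.image (fun t => e (t, c t))

theorem mem_trv {β : Type*} [DecidableEq β] {l q : ℕ} {e : Fin l × Fin q ↪ β}
    {c : Fin l → Fin q} {x : β} : x ∈ trv e c ↔ ∃ t, e (t, c t) = x := by
  simp [trv]

theorem card_trv {β : Type*} [DecidableEq β] {l q : ℕ} (e : Fin l × Fin q ↪ β)
    (c : Fin l → Fin q) : (trv e c).card = l := by
  rw [trv, Finset.card_image_of_injective, Finset.card_univ, Fintype.card_fin]
  intro t t' h
  have := e.injective h
  simp only [Prod.mk.injEq] at this
  exact this.1

theorem trv_map {β : Type*} [DecidableEq β] {l q : ℕ} (e : Fin l × Fin q ↪ β)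
    (c : Fin l → Fin q) (σ : Equiv.Perm β) :
    (trv e c).map σ.toEmbedding = trv (e.trans σ.toEmbedding) c := by
  ext x
  simp [trv, Equiv.eq_symm_apply]

theorem trv_update {β : Type*} [DecidableEq β] {l q : ℕ} (e : Fin l × Fin q ↪ β)
    (c : Fin l → Fin q) (t : Fin l) (b : Fin q) :
    trv e (Function.update c t b) =
      insert (e (t, b)) ((univ.erase t).image (fun t => e (t, c t))) := by
  ext x
  simp only [trv, Finset.mem_image, Finset.mem_univ, true_and, Finset.mem_insert,
    Finset.mem_erase, and_true]
  constructor
  · rintro ⟨s, rfl⟩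
    by_cases hs : s = t
    · subst hs; left; simp
    · right; exact ⟨s, hs, by simp [Function.update_of_ne hs]⟩
  · rintro (rfl | ⟨s, hs, rfl⟩)
    · exact ⟨t, by simp⟩
    · exact ⟨s, by simp [Function.update_of_ne hs]⟩

theorem trv_notMem {β : Type*} [DecidableEq β] {l q : ℕ} (e : Fin l × Fin q ↪ β)
    (c : Fin l → Fin q) (t : Fin l) (b : Fin q) :
    e (t, b) ∉ (univ.erase t).image (fun t => e (t, c t)) := by
  intro h
  simp only [Finset.mem_image, Finset.mem_univ, Finset.mem_erase, and_true] at h
  obtain ⟨s, hs, h⟩ := h
  have := e.injective h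
  simp only [Prod.mk.injEq] at this
  exact hs this.1

theorem trv_base_card {β : Type*} [DecidableEq β] {l q : ℕ} (e : Fin l × Fin q ↪ β)
    (c : Fin l → Fin q) (t : Fin l) :
    ((univ.erase t).image (fun t => e (t, c t))).card + 1 = l := by
  rw [Finset.card_image_of_injective, Finset.card_erase_of_mem (mem_univ _),
      Finset.card_univ, Fintype.card_fin]
  · have : 0 < l := t.pos
    omega
  · intro t t' h
    have := e.injective h
    simp only [Prod.mk.injEq] at this
    exact this.1

theorem trv_disjoint {β : Type*} [DecidableEq β] {l q : ℕ} (e : Fin l × Fin q ↪ β)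
    (c c' : Fin l → Fin q) (h : ∀ i, c i ≠ c' i) : Disjoint (trv e c) (trv e c') := by
  rw [Finset.disjoint_left]
  intro x hx hx'
  rw [mem_trv] at hx hx'
  obtain ⟨t, rfl⟩ := hx
  obtain ⟨t', ht'⟩ := hx'
  have := e.injective ht'
  simp only [Prod.mk.injEq] at this
  obtain ⟨rfl, h2⟩ := this
  exact h _ h2.symm

/-- A weighted inequality for cross dependent nested families. -/
theorem class_sum {β : Type*} [Fintype β] [DecidableEq β] (s t q l : ℕ) (ht : 1 ≤ t)
    (hst : s ≤ t) (htq : t ≤ q) (hl : q * l ≤ Fintype.card β) (v : Finset β → ℝ)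
    (hv : ∀ f, f.card = l → 0 < v f)
    (hline : ∀ (P : Finset β) (x b : β), P.card + 1 = l → x ∉ P → b ∉ P →
      ((t : ℝ) - 1) * v (insert x P) ≤ ((q : ℝ) - 1) * v (insert b P))
    (G : ℕ → Finset β → Prop) [∀ j, DecidablePred (G j)]
    (hnest : ∀ a b f, a ≤ b → b ≤ s → f.card = l → G b f → G a f)
    (hcross : ∀ H : Fin (s+1) → Finset β, (∀ j, (H j).card = l ∧ G j (H j)) →
      ¬ (∀ i j, i ≠ j → Disjoint (H i) (H j))) :
    ∑ f ∈ powersetCard l (univ : Finset β),
      v f * ((∑ j ∈ range s, if G j f then (1:ℝ) else 0) +
        ((t : ℝ) - s) * (if G s f then 1 else 0) - s) ≤ 0 := by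
  classical
  have hne : Nonempty (Fin l × Fin q ↪ β) := by
    apply Function.Embedding.nonempty_of_card_le
    simp only [Fintype.card_prod, Fintype.card_fin]
    rw [mul_comm]; exact hl
  obtain ⟨e⟩ := hne
  set θ : Finset β → ℝ := fun f => (∑ j ∈ range s, if G j f then (1:ℝ) else 0) +
        ((t : ℝ) - s) * (if G s f then 1 else 0) - s with hθ
  have hone : ∀ e : Fin l × Fin q ↪ β,
      ∑ c : Fin l → Fin q, v (trv e c) * θ (trv e c) ≤ 0 := by
    intro e
    apply couple t q ht l (fun c => v (trv e c)) (fun c => θ (trv e c))
    · intro c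
      exact hv _ (card_trv e c)
    · intro c i
      set P := (univ.erase i).image (fun t => e (t, c t)) with hP
      have hself : trv e c = insert (e (i, c i)) P := by
        have := trv_update e c i (c i)
        rwa [Function.update_eq_self] at this
      simp only [trv_update]
      rw [hself]
      have hvpos : ∀ b, 0 < v (insert (e (i, b)) P) := by
        intro b
        apply hv
        rw [Finset.card_insert_of_notMem (trv_notMem e c i b)]
        exact trv_base_card e c i
      have h1 := Finset.add_sum_erase (univ : Finset (Fin q))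
        (fun b => v (insert (e (i, b)) P)) (Finset.mem_univ (c i))
      rw [← h1]
      rcases Nat.lt_or_ge 1 q with hq | hq
      · have h2 : ∀ b ∈ (univ : Finset (Fin q)).erase (c i),
            ((t : ℝ) - 1) * v (insert (e (i, c i)) P) ≤
            ((q : ℝ) - 1) * v (insert (e (i, b)) P) := by
          intro b _
          exact hline P _ _ (trv_base_card e c i) (trv_notMem e c i _) (trv_notMem e c i _)
        have h3 := Finset.sum_le_sum h2
        rw [Finset.sum_const, Finset.card_erase_of_mem (Finset.mem_univ _), Finset.card_univ,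
          Fintype.card_fin, nsmul_eq_mul, ← Finset.mul_sum, Nat.cast_sub hq.le,
          Nat.cast_one] at h3
        have hq' : (0:ℝ) < (q:ℝ) - 1 := by
          have : (1:ℝ) < q := by exact_mod_cast hq
          linarith
        have h4 := le_of_mul_le_mul_left h3 hq'
        linarith
      · have ht1 : t = 1 := by omega
        subst ht1
        have h2 : 0 ≤ ∑ b ∈ (univ : Finset (Fin q)).erase (c i),
            v (insert (e (i, b)) P) := Finset.sum_nonneg (fun b _ => (hvpos b).le)
        push_cast
        linarith
    · intro X hX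
      -- reduction to the nested sets
      have h1 := local_hall s t hst
        (fun j => univ.filter (fun c => G (min j s) (trv e (X c))))
        (by
          intro a b hab c hc
          rw [Finset.mem_filter] at hc ⊢
          exact ⟨hc.1, hnest _ _ _ (min_le_min_right s hab) (min_le_right _ _)
            (card_trv _ _) hc.2⟩)
        (by
          rintro ⟨f, hf, hfj⟩
          apply hcross (fun j => trv e (X (f j)))
          · intro j
            refine ⟨card_trv _ _, ?_⟩
            have := hfj j
            rw [Finset.mem_filter] at this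
            have h2 : min j.val s = j.val := by
              have := j.2
              omega
            rw [h2] at this
            exact this.2
          · intro i j hij
            apply trv_disjoint
            exact hX _ _ (fun h => hij (hf h)))
      have h2 : ∑ c : Fin t, θ (trv e (X c)) =
          ((∑ j ∈ range s, (univ.filter (fun c => G (min j s) (trv e (X c)))).card : ℕ) : ℝ) +
          ((t : ℝ) - s) * ((univ.filter (fun c => G (min s s) (trv e (X c)))).card : ℝ) -
            s * t := by
        simp only [hθ]
        rw [Finset.sum_sub_distrib, Finset.sum_add_distrib, Finset.sum_comm, ← Finset.mul_sum]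
        rw [Finset.sum_const, Finset.card_univ, Fintype.card_fin, nsmul_eq_mul]
        push_cast
        congr 1
        · congr 1
          · apply Finset.sum_congr rfl
            intro j hj
            rw [Finset.mem_range] at hj
            rw [min_eq_left hj.le]
            simp
          · rw [min_self]
            simp
        · ring
      rw [h2]
      have h3 : ((∑ j ∈ range s, (univ.filter (fun c => G (min j s) (trv e (X c)))).card : ℕ) : ℝ) +
          ((t - s : ℕ) : ℝ) * ((univ.filter (fun c => G (min s s) (trv e (X c)))).card : ℝ) ≤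
            s * t := by exact_mod_cast h1
      rw [Nat.cast_sub hst] at h3
      linarith
  -- sum over permutations
  have htot : ((Fintype.card β).choose l : ℝ) * ∑ σ : Equiv.Perm β, (∑ c : Fin l → Fin q,
        v (trv (e.trans σ.toEmbedding) c) * θ (trv (e.trans σ.toEmbedding) c)) =
      (Fintype.card (Fin l → Fin q) * Fintype.card (Equiv.Perm β)) *
        ∑ T ∈ powersetCard l (univ : Finset β), v T * θ T := by
    rw [Finset.sum_comm, Finset.mul_sum]
    rw [Finset.sum_congr rfl (g := fun _ => (Fintype.card (Equiv.Perm β) : ℝ) *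
      ∑ T ∈ powersetCard l (univ : Finset β), v T * θ T)]
    · rw [Finset.sum_const, Finset.card_univ, nsmul_eq_mul, mul_assoc]
    · intro c _
      have := avg_perm_real (fun T => v T * θ T) (trv e c)
      rw [card_trv e c] at this
      rw [← this]
      congr 1
      apply Finset.sum_congr rfl
      intro σ _
      simp only [trv_map]
  have h1 : ((Fintype.card β).choose l : ℝ) * ∑ σ : Equiv.Perm β, (∑ c : Fin l → Fin q,
        v (trv (e.trans σ.toEmbedding) c) * θ (trv (e.trans σ.toEmbedding) c)) ≤ 0 := by
    apply mul_nonpos_of_nonneg_of_nonpos (Nat.cast_nonneg _)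
    apply Finset.sum_nonpos
    intro σ _
    exact hone _
  rw [htot] at h1
  by_contra hcon
  push Not at hcon
  have hq : 0 < q := by omega
  have hne2 : Nonempty (Fin l → Fin q) := ⟨fun _ => ⟨0, hq⟩⟩
  have h2 : (0:ℝ) < (Fintype.card (Fin l → Fin q) * Fintype.card (Equiv.Perm β)) := by
    have e1 : 0 < Fintype.card (Fin l → Fin q) := Fintype.card_pos
    have e2 : 0 < Fintype.card (Equiv.Perm β) := Fintype.card_pos
    have e1' : (0:ℝ) < (Fintype.card (Fin l → Fin q) : ℝ) := by exact_mod_cast e1
    have e2' : (0:ℝ) < (Fintype.card (Equiv.Perm β) : ℝ) := by exact_mod_cast e2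
    exact mul_pos e1' e2'
  have h3 := mul_pos h2 hcon
  linarith

end Pool.Agent.DPG
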