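import Pool.Agent.DPG.Supply

namespace Pool.Agent.DPG

open Finset DPS

variable {n : ℕ}

theorem cnt_insert_le (q D : ℕ) (F : Finset (Finset (Fin n))) (H : Finset (Fin n)) (x : Fin n)
    (hx : x ∉ H) : cnt (q+1) D F (insert x H) ≤ H.card.choose q + cnt (q+1) D F H := by
  classical
  unfold cnt
  rw [Finset.powersetCard_succ_insert hx, Finset.filter_union]
  refine (Finset.card_union_le _ _).trans ?_
  rw [add_comm]
  apply Nat.add_le_add_right
  refine (Finset.card_filter_le _ _).trans ?_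
  refine Finset.card_image_le.trans ?_
  rw [Finset.card_powersetCard]

theorem cnt_mono (r D : ℕ) (F : Finset (Finset (Fin n))) {A B : Finset (Fin n)} (h : A ⊆ B) :
    cnt r D F A ≤ cnt r D F B :=
  Finset.card_le_card (Finset.filter_subset_filter _ (Finset.powersetCard_mono h))

theorem cnt_le_choose (r D : ℕ) (F : Finset (Finset (Fin n))) (A : Finset (Fin n)) :
    cnt r D F A ≤ A.card.choose r := by
  unfold cnt
  refine (Finset.card_filter_le _ _).trans ?_
  rw [Finset.card_powersetCard]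

theorem core (k r s t w q D : ℕ) (hr : 1 ≤ r) (hrk : r + 1 ≤ k) (hs : 1 ≤ s)
    (hwk : w ≤ k - r) (h1 : (s+1)*(k-1) ≤ (t-s)*(r+w))
    (h2 : (t-1)*(k-1+w) ≤ (q-1)*(k-1)) (hn : q*(k-1)+s+1 ≤ n)
    {F : Finset (Finset (Fin n))} (hF : Shifted F) (hnu : NuLe s F)
    (hU : ∀ A ∈ F, A.card = k) (el : ℕ → Fin n) (hel : ∀ j, (el j).val = min j s) :
    (∑ C ∈ F with ∀ x ∈ C, s + 1 ≤ x.val, cnt r D F C) +
      ∑ H ∈ powersetCard (k-1) (hiS (s+1) : Finset (Fin n)) with insert (el s) H ∈ F,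
        ((k-1).choose (r-1) + cnt r D F H) ≤
      ∑ j ∈ range s, ∑ H ∈ powersetCard (k-1) (hiS (s+1) : Finset (Fin n)) with
        insert (el j) H ∉ F, ((k-1).choose (r-1) + cnt r D F H) := by
  classical
  obtain ⟨p, rfl⟩ : ∃ p, r = p+1 := ⟨r-1, by omega⟩
  obtain ⟨m, rfl⟩ : ∃ m, k = m+2 := ⟨k-2, by omega⟩
  simp only [Nat.add_sub_cancel, show m + 2 - 1 = m + 1 from rfl] at *
  -- consequences of the arithmetic hypotheses
  have hts : s + 1 ≤ t := by
    by_contra hc
    have : t - s = 0 := by omega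
    rw [this] at h1
    have : 0 < (s+1)*(m+1) := Nat.mul_pos (Nat.succ_pos _) (Nat.succ_pos _)
    omega
  have htq : t ≤ q := by
    have h3 : (t-1)*(m+1) ≤ (q-1)*(m+1) :=
      le_trans (Nat.mul_le_mul_left _ (Nat.le_add_right _ _)) h2
    have h4 := Nat.le_of_mul_le_mul_right h3 (Nat.succ_pos m)
    omega
  have hks : (m+2) * (s+1) ≤ n := by
    have : (s+1)*(m+1) ≤ q*(m+1) := Nat.mul_le_mul_right _ (by omega)
    have e : (m+2)*(s+1) = (s+1)*(m+1) + (s+1) := by ring
    omega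
  set c : ℕ := (m+1).choose p with hc
  have hcpos : 0 < c := Nat.choose_pos (by omega)
  set y : Finset (Fin n) → ℝ := fun H => (cnt (p+1) D F H : ℝ) with hy
  have hy0 : ∀ H, 0 ≤ y H := fun H => Nat.cast_nonneg _
  set v : Finset (Fin n) → ℝ := fun H => (if H.card = m+1 then (c:ℝ) + y H else 0) with hv
  -- numerical facts in the reals
  have hwR : (w:ℝ) ≤ (m+1:ℝ) - p := by
    have : w + (p + 1) ≤ m + 2 := by omega
    have : ((w + (p+1) : ℕ) : ℝ) ≤ ((m + 2 : ℕ) : ℝ) := by exact_mod_cast this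
    push_cast at this
    linarith
  have hw0 : (0:ℝ) ≤ w := Nat.cast_nonneg _
  have hp0 : (0:ℝ) ≤ p := Nat.cast_nonneg _
  have hmp : (0:ℝ) < (m+1:ℝ) - p := by
    have : ((p + 1 + 1 : ℕ) : ℝ) ≤ ((m+2 : ℕ) : ℝ) := by exact_mod_cast hrk
    push_cast at this
    linarith
  have hcR : (0:ℝ) < c := by exact_mod_cast hcpos
  have h1R : ((s:ℝ)+1)*(m+1) ≤ ((t:ℝ)-s)*(p+1+w) := by
    have : (((s+1)*(m+1) : ℕ) : ℝ) ≤ (((t-s)*(p+1+w) : ℕ) : ℝ) := by exact_mod_cast h1
    push_cast at this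
    rw [Nat.cast_sub (by omega)] at this
    linarith
  have h2R : ((t:ℝ)-1)*(m+1+w) ≤ ((q:ℝ)-1)*(m+1) := by
    have : (((t-1)*(m+1+w) : ℕ) : ℝ) ≤ (((q-1)*(m+1) : ℕ) : ℝ) := by exact_mod_cast h2
    push_cast at this
    rw [Nat.cast_sub (by omega), Nat.cast_sub (by omega)] at this
    push_cast at this
    linarith
  -- the weighted shadow
  have hshadow := wshadow hF s (m+2) hs (by omega) hks hnu hU (el s)
    (by rw [hel, min_self]) y v
    (by
      intro H
      simp only [hv]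
      split_ifs
      · have := hy0 H
        linarith
      · exact le_rfl)
    (by
      intro C hC x hx
      have hCc : (C.erase x).card = m + 1 := by
        rw [Finset.card_erase_of_mem hx, hU C hC]; rfl
      simp only [hv, hCc, if_true]
      have h3 := cnt_insert_le p D F (C.erase x) x (Finset.notMem_erase _ _)
      rw [Finset.insert_erase hx, hCc] at h3
      simp only [hy]
      exact_mod_cast h3)
  -- rewrite the sum over the shadow
  have hset : ((powersetCard (m+2-1) (univ : Finset (Fin n))).filter (fun H =>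
        ((∀ x ∈ H, s + 1 ≤ x.val) ∧ insert (el s) H ∈ F))) =
      (powersetCard (m+1) (hiS (s+1) : Finset (Fin n))).filter
        (fun H => insert (el s) H ∈ F) := by
    ext H
    simp only [Finset.mem_filter, Finset.mem_powersetCard, Finset.subset_univ, true_and,
      show m + 2 - 1 = m + 1 from rfl]
    constructor
    · rintro ⟨h3, h4, h5⟩
      exact ⟨⟨fun x hx => mem_hiS.mpr (h4 x hx), h3⟩, h5⟩
    · rintro ⟨⟨h3, h4⟩, h5⟩
      exact ⟨h4, fun x hx => mem_hiS.mp (h3 hx), h5⟩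
  rw [hset] at hshadow
  set GF := (powersetCard (m+1) (hiS (s+1) : Finset (Fin n))).filter
        (fun H => insert (el s) H ∈ F) with hGF
  have hGcard : ∀ H ∈ GF, H.card = m+1 := by
    intro H hH
    exact (Finset.mem_powersetCard.mp (Finset.mem_filter.mp hH).1).2
  have hvG : ∑ H ∈ GF, v H = ∑ H ∈ GF, ((c:ℝ) + y H) := by
    apply Finset.sum_congr rfl
    intro H hH
    simp only [hv, hGcard H hH, if_true]
  rw [hvG] at hshadow
  -- the second weight
  set u : Finset (Fin n) → ℝ := fun H => ((m+1:ℝ) - p) * c + w * y H with hu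
  have hsup := supply s t q (m+2) (by omega) (by omega) htq hn hF hnu u
    (by
      intro H _ _
      simp only [hu]
      have h3 := mul_pos hmp hcR
      have h4 := mul_nonneg hw0 (hy0 H)
      linarith)
    (by
      intro P hP x _ b _ hPc hx hb
      have hPc' : P.card = m := by simpa using hPc
      have h3 := cnt_insert_le p D F P x hx
      rw [hPc'] at h3
      have h4 := cnt_mono (p+1) D F (Finset.subset_insert b P)
      have h3' : y (insert x P) ≤ (m.choose p : ℝ) + y P := by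
        simp only [hy]; exact_mod_cast h3
      have h4' : y P ≤ y (insert b P) := by
        simp only [hy]; exact_mod_cast h4
      have h5 : m.choose p * (m+1) = c * (m + 1 - p) := by
        rw [hc]; exact Nat.choose_mul_succ_eq m p
      have h5' : (m.choose p : ℝ) * (m+1) = c * ((m+1:ℝ) - p) := by
        have : ((m.choose p * (m+1) : ℕ) : ℝ) = ((c * (m+1-p) : ℕ) : ℝ) := by rw [h5]
        push_cast at this
        rw [Nat.cast_sub (by omega)] at this
        push_cast at this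
        exact this
      simp only [hu]
      have htR : (0:ℝ) ≤ (t:ℝ) - 1 := by
        have : (1:ℝ) ≤ t := by exact_mod_cast (by omega : 1 ≤ t)
        linarith
      have hqR : (0:ℝ) ≤ (q:ℝ) - 1 := by
        have : (1:ℝ) ≤ q := by exact_mod_cast (by omega : 1 ≤ q)
        linarith
      have htqR : (t:ℝ) - 1 ≤ (q:ℝ) - 1 := by
        have : (t:ℝ) ≤ q := by exact_mod_cast htq
        linarith
      have hm1 : (0:ℝ) < (m:ℝ) + 1 := by positivity
      have h6 : ((t:ℝ)-1) * (((m+1:ℝ) - p) * c + w * y (insert x P)) ≤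
          ((t:ℝ)-1) * (((m+1:ℝ) - p) * c + w * ((m.choose p : ℝ) + y P)) := by
        apply mul_le_mul_of_nonneg_left _ htR
        have := mul_le_mul_of_nonneg_left h3' hw0
        linarith
      have h7 : ((q:ℝ)-1) * (((m+1:ℝ) - p) * c + w * y P) ≤
          ((q:ℝ)-1) * (((m+1:ℝ) - p) * c + w * y (insert b P)) := by
        apply mul_le_mul_of_nonneg_left _ hqR
        have := mul_le_mul_of_nonneg_left h4' hw0
        linarith
      have h8 : ((t:ℝ)-1) * (w * y P) ≤ ((q:ℝ)-1) * (w * y P) :=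
        mul_le_mul_of_nonneg_right htqR (mul_nonneg hw0 (hy0 P))
      have h9 : ((t:ℝ)-1) * (((m+1:ℝ) - p) * c + w * (m.choose p : ℝ)) ≤
          ((q:ℝ)-1) * (((m+1:ℝ) - p) * c) := by
        have e1 : (((t:ℝ)-1) * (((m+1:ℝ) - p) * c + w * (m.choose p : ℝ))) * (m+1) =
            (((t:ℝ)-1) * (m+1+w)) * (c * ((m+1:ℝ) - p)) := by
          have : (((t:ℝ)-1) * (((m+1:ℝ) - p) * c + w * (m.choose p : ℝ))) * (m+1) =
            ((t:ℝ)-1) * (((m+1:ℝ) - p) * c * (m+1) + w * ((m.choose p : ℝ) * (m+1))) := by ring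
          rw [this, h5']; ring
        have e2 : (((q:ℝ)-1) * (((m+1:ℝ) - p) * c)) * (m+1) =
            (((q:ℝ)-1) * (m+1)) * (c * ((m+1:ℝ) - p)) := by ring
        have e3 := mul_le_mul_of_nonneg_right h2R (mul_pos hcR hmp).le
        rw [← e1, ← e2] at e3
        exact le_of_mul_le_mul_right e3 hm1
      linarith)
    el hel
  simp only [show m + 2 - 1 = m + 1 from rfl] at hsup
  rw [← hGF] at hsup
  -- compare the weights
  have hyc : ∀ H : Finset (Fin n), H.card = m+1 → ((p:ℝ)+1) * y H ≤ ((m+1:ℝ) - p) * c := by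
    intro H hH
    have h3 := cnt_le_choose (p+1) D F H
    rw [hH] at h3
    have h4 : (m+1).choose (p+1) * (p+1) = (m+1).choose p * (m + 1 - p) :=
      Nat.choose_succ_right_eq (m+1) p
    have h4' : ((m+1).choose (p+1) : ℝ) * (p+1) = c * ((m+1:ℝ) - p) := by
      have : (((m+1).choose (p+1) * (p+1) : ℕ) : ℝ) = (((m+1).choose p * (m+1-p) : ℕ) : ℝ) := by
        rw [h4]
      push_cast at this
      rw [Nat.cast_sub (by omega)] at this
      push_cast at this
      exact this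
    have h3' : y H ≤ ((m+1).choose (p+1) : ℝ) := by
      simp only [hy]; exact_mod_cast h3
    have := mul_le_mul_of_nonneg_left h3' (by linarith : (0:ℝ) ≤ (p:ℝ)+1)
    linarith
  have hcmp1 : ∀ H ∈ GF, ((m+1:ℝ) - p) * (p + 1 + w) * (c + y H) ≤ (m+2) * u H := by
    intro H hH
    have h3 := hyc H (hGcard H hH)
    simp only [hu]
    have h4 : (m+2) * (((m+1:ℝ) - p) * c + w * y H) -
        ((m+1:ℝ) - p) * (p + 1 + w) * (c + y H) =
        ((m+1:ℝ) - p - w) * (((m+1:ℝ) - p) * c - (p+1) * y H) := by ring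
    have h5 : 0 ≤ ((m+1:ℝ) - p - w) * (((m+1:ℝ) - p) * c - (p+1) * y H) :=
      mul_nonneg (by linarith) (by linarith)
    linarith
  have hcmp2 : ∀ H, u H ≤ ((m+1:ℝ) - p) * (c + y H) := by
    intro H
    simp only [hu]
    have := mul_le_mul_of_nonneg_right hwR (hy0 H)
    linarith
  -- conclusion
  set SG : ℝ := ∑ H ∈ GF, ((c:ℝ) + y H) with hSG
  set SU : ℝ := ∑ H ∈ GF, u H with hSU
  set TV : ℝ := ∑ j ∈ range s, ∑ H ∈ powersetCard (m+1) (hiS (s+1) : Finset (Fin n)) with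
        insert (el j) H ∉ F, ((c:ℝ) + y H) with hTV
  set TU : ℝ := ∑ j ∈ range s, ∑ H ∈ powersetCard (m+1) (hiS (s+1) : Finset (Fin n)) with
        insert (el j) H ∉ F, u H with hTU
  have hSG0 : 0 ≤ SG := Finset.sum_nonneg (fun H _ => by have := hy0 H; linarith)
  have e1 : ((m+1:ℝ) - p) * (p + 1 + w) * SG ≤ (m+2) * SU := by
    rw [hSG, hSU, Finset.mul_sum, Finset.mul_sum]
    exact Finset.sum_le_sum hcmp1
  have e2 : TU ≤ ((m+1:ℝ) - p) * TV := by
    rw [hTU, hTV, Finset.mul_sum]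
    apply Finset.sum_le_sum
    intro j _
    rw [Finset.mul_sum]
    exact Finset.sum_le_sum (fun H _ => hcmp2 H)
  have e3 : ((s:ℝ)+1)*(m+1) * SG ≤ (m+2) * TV := by
    have a1 : ((s:ℝ)+1)*(m+1) * (((m+1:ℝ) - p) * SG) ≤
        (((t:ℝ)-s)*(p+1+w)) * (((m+1:ℝ) - p) * SG) :=
      mul_le_mul_of_nonneg_right h1R (mul_nonneg hmp.le hSG0)
    have hts' : (0:ℝ) ≤ (t:ℝ) - s := by
      have : (s:ℝ) ≤ t := by exact_mod_cast (by omega : s ≤ t)
      linarith
    have a2 : ((t:ℝ)-s) * (((m+1:ℝ) - p) * (p + 1 + w) * SG) ≤ ((t:ℝ)-s) * ((m+2) * SU) :=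
      mul_le_mul_of_nonneg_left e1 hts'
    have a3 : (m+2:ℝ) * (((t:ℝ)-s) * SU) ≤ (m+2) * TU :=
      mul_le_mul_of_nonneg_left hsup (by positivity)
    have a4 : (m+2:ℝ) * TU ≤ (m+2) * (((m+1:ℝ) - p) * TV) :=
      mul_le_mul_of_nonneg_left e2 (by positivity)
    have a5 : ((m+1:ℝ) - p) * (((s:ℝ)+1)*(m+1) * SG) ≤ ((m+1:ℝ) - p) * ((m+2) * TV) := by
      linarith
    exact le_of_mul_le_mul_left a5 hmp
  have e4 : ∑ C ∈ F with ∀ x ∈ C, s + 1 ≤ x.val, y C + SG ≤ TV := by
    have hm2 : (0:ℝ) < (m:ℝ) + 2 := by positivity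
    have a1 : ((m:ℝ)+2) * ∑ C ∈ F with ∀ x ∈ C, s + 1 ≤ x.val, y C ≤
        ((s:ℝ) * (m+2) - s - 1) * SG := by
      have := hshadow
      push_cast at this
      exact this
    have a2 : ((m:ℝ)+2) * (∑ C ∈ F with ∀ x ∈ C, s + 1 ≤ x.val, y C + SG) ≤
        ((m:ℝ)+2) * TV := by
      have a3 : ((m:ℝ)+2) * (∑ C ∈ F with ∀ x ∈ C, s + 1 ≤ x.val, y C + SG) ≤
          ((s:ℝ) * (m+2) - s - 1) * SG + (m+2) * SG := by
        rw [mul_add]; linarith
      have a4 : ((s:ℝ) * (m+2) - s - 1) * SG + (m+2) * SG = ((s:ℝ)+1)*(m+1) * SG := by ring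
      linarith
    exact le_of_mul_le_mul_left a2 hm2
  rw [hSG, hTV] at e4
  simp only [hy] at e4
  exact_mod_cast e4

end Pool.Agent.DPG
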