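import Mathlib

namespace Pool.Agent.DPG

open Finset

/-- A rectangular version of Birkhoff's theorem. -/
theorem rect_birkhoff (t q : ℕ) (P : Fin t → Fin q → ℝ) (hP : ∀ c a, 0 ≤ P c a)
    (hrow : ∀ c, ∑ a, P c a = 1) (hcol : ∀ a, ∑ c, P c a ≤ 1)
    (β : Fin t → Fin q → ℝ)
    (hβ : ∀ τ : Fin t → Fin q, Function.Injective τ → ∑ c, β c (τ c) ≤ 0) :
    ∑ c, ∑ a, P c a * β c a ≤ 0 := by
  classical
  have htot : ∑ a, ∑ c, P c a = (t : ℝ) := by
    rw [Finset.sum_comm]; simp [hrow]
  have htq : t ≤ q := by
    have : (t : ℝ) ≤ q := by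
      rw [← htot]
      calc ∑ a, ∑ c, P c a ≤ ∑ a : Fin q, (1:ℝ) := Finset.sum_le_sum (fun a _ => hcol a)
        _ = q := by simp
    exact_mod_cast this
  obtain ⟨u, rfl⟩ := Nat.exists_eq_add_of_le htq
  let e : Fin t ⊕ Fin u ≃ Fin (t+u) := finSumFinEquiv
  let M : Matrix (Fin t ⊕ Fin u) (Fin t ⊕ Fin u) ℝ := fun x y =>
    Sum.elim (fun c => P c (e y)) (fun _ => (1 - ∑ c, P c (e y)) / (u : ℝ)) x
  have hM : M ∈ doublyStochastic ℝ (Fin t ⊕ Fin u) := by
    rw [mem_doublyStochastic_iff_sum]
    refine ⟨?_, ?_, ?_⟩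
    · rintro (c | d) y
      · exact hP _ _
      · exact div_nonneg (sub_nonneg.mpr (hcol _)) (Nat.cast_nonneg _)
    · rintro (c | d)
      · change ∑ y, P c (e y) = 1
        rw [Equiv.sum_comp e (fun a => P c a)]
        exact hrow c
      · change ∑ y, (1 - ∑ c, P c (e y)) / (u : ℝ) = 1
        have hu : (u : ℝ) ≠ 0 := by
          have := d.pos
          positivity
        rw [← Finset.sum_div, Finset.sum_sub_distrib, Equiv.sum_comp e (fun a => ∑ c, P c a),
          htot]
        simp only [Finset.sum_const, Finset.card_univ, Fintype.card_sum, Fintype.card_fin,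
          nsmul_eq_mul, mul_one]
        push_cast
        rw [add_sub_cancel_left, div_self hu]
    · intro y
      rw [Fintype.sum_sum_type]
      change ∑ c, P c (e y) + ∑ d : Fin u, (1 - ∑ c, P c (e y)) / (u : ℝ) = 1
      rw [Finset.sum_const, Finset.card_univ, Fintype.card_fin, nsmul_eq_mul]
      rcases Nat.eq_zero_or_pos u with h | h
      · subst h
        have h1 : ∑ a : Fin (t+0), ∑ c, P c a = ∑ a : Fin (t+0), (1:ℝ) := by
          rw [htot]; simp
        have h2 := (Finset.sum_eq_sum_iff_of_le (fun a _ => hcol a)).mp h1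
        rw [h2 (e y) (Finset.mem_univ _)]
        simp
      · have hu : (u : ℝ) ≠ 0 := by positivity
        field_simp
        ring
  obtain ⟨w, hw0, _, hwM⟩ := exists_eq_sum_perm_of_mem_doublyStochastic hM
  have hentry : ∀ c y, P c (e y) = ∑ σ : Equiv.Perm (Fin t ⊕ Fin u),
      w σ * (if σ (Sum.inl c) = y then 1 else 0) := by
    intro c y
    have h1 : M (Sum.inl c) y = (∑ σ, w σ • σ.permMatrix ℝ) (Sum.inl c) y := by rw [hwM]
    rw [Matrix.sum_apply] at h1
    change P c (e y) = _ at h1
    rw [h1]
    apply Finset.sum_congr rfl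
    intro σ _
    have h2 : Equiv.Perm.permMatrix ℝ σ (Sum.inl c) y =
        if σ (Sum.inl c) = y then (1:ℝ) else 0 := by
      simp only [PEquiv.toMatrix_apply, Equiv.toPEquiv_apply, Option.mem_def,
        Option.some.injEq]
    rw [Matrix.smul_apply, smul_eq_mul, h2]
  have hsum : ∑ c, ∑ a, P c a * β c a = ∑ σ : Equiv.Perm (Fin t ⊕ Fin u),
      w σ * ∑ c, β c (e (σ (Sum.inl c))) := by
    have h1 : ∀ c, ∑ a, P c a * β c a = ∑ σ : Equiv.Perm (Fin t ⊕ Fin u),
        w σ * β c (e (σ (Sum.inl c))) := by
      intro c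
      rw [← Equiv.sum_comp e (fun a => P c a * β c a)]
      simp only [hentry, Finset.sum_mul]
      rw [Finset.sum_comm]
      apply Finset.sum_congr rfl
      intro σ _
      simp
    simp only [h1]
    rw [Finset.sum_comm]
    apply Finset.sum_congr rfl
    intro σ _
    rw [Finset.mul_sum]
  rw [hsum]
  apply Finset.sum_nonpos
  intro σ _
  apply mul_nonpos_of_nonneg_of_nonpos (hw0 σ)
  apply hβ
  intro c c' h
  have := e.injective h
  exact Sum.inl_injective (σ.injective this)

/-- The coupling lemma. -/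
theorem couple (t q : ℕ) (ht : 1 ≤ t) : ∀ (l : ℕ) (v θ : (Fin l → Fin q) → ℝ)
    (_ : ∀ x, 0 < v x)
    (_ : ∀ x i, t * v x ≤ ∑ b, v (Function.update x i b))
    (_ : ∀ X : Fin t → Fin l → Fin q, (∀ c c', c ≠ c' → ∀ i, X c i ≠ X c' i) →
      ∑ c, θ (X c) ≤ 0),
    ∑ x, v x * θ x ≤ 0 := by
  classical
  intro l
  induction l with
  | zero =>
    intro v θ hv _ hθ
    have h0 : ∀ x : Fin 0 → Fin q, θ x ≤ 0 := by
      intro x
      have h1 := hθ (fun _ => x) (fun c c' _ i => i.elim0)
      rw [Finset.sum_const, Finset.card_univ, Fintype.card_fin, nsmul_eq_mul] at h1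
      have ht' : (0:ℝ) < t := by exact_mod_cast ht
      by_contra hc
      push Not at hc
      have := mul_pos ht' hc
      linarith
    apply Finset.sum_nonpos
    intro x _
    exact mul_nonpos_of_nonneg_of_nonpos (hv x).le (h0 x)
  | succ l ih =>
    intro v θ hv hl hθ
    have key : ∀ f : (Fin (l+1) → Fin q) → ℝ, ∑ x, f x = ∑ z : Fin l → Fin q, ∑ a : Fin q,
        f (Fin.cons a z) := by
      intro f
      rw [Finset.sum_comm]
      rw [← Fintype.sum_prod_type' (f := fun (a : Fin q) (z : Fin l → Fin q) =>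
        f (Fin.cons a z))]
      symm
      exact Fintype.sum_equiv (Fin.consEquiv (fun _ : Fin (l+1) => Fin q)) _ _
        (fun x => rfl)
    rw [key]
    -- the total weight of a column
    set V : (Fin l → Fin q) → ℝ := fun z => ∑ a : Fin q, v (Fin.cons a z) with hV
    rcases Nat.eq_zero_or_pos q with hq | hq
    · subst hq
      simp
    have hne : Nonempty (Fin q) := ⟨⟨0, hq⟩⟩
    have hVpos : ∀ z, 0 < V z := fun z => Finset.sum_pos (fun a _ => hv _)
      Finset.univ_nonempty
    have hVl : ∀ x i, t * V x ≤ ∑ b, V (Function.update x i b) := by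
      intro z i
      simp only [hV]
      rw [Finset.sum_comm, Finset.mul_sum]
      apply Finset.sum_le_sum
      intro a _
      have := hl (Fin.cons a z) i.succ
      simpa [Fin.cons_update] using this
    have hline0 : ∀ a z, t * v (Fin.cons a z) ≤ V z := by
      intro a z
      have := hl (Fin.cons a z) 0
      simpa [Fin.update_cons_zero] using this
    set θ' : (Fin l → Fin q) → ℝ := fun z => ∑ a : Fin q, v (Fin.cons a z) / V z *
      θ (Fin.cons a z) with hθ'
    have hih := ih V θ' hVpos hVl (by
      intro X hX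
      simp only [hθ']
      apply rect_birkhoff t q (fun c a => v (Fin.cons a (X c)) / V (X c))
      · intro c a
        exact div_nonneg (hv _).le (hVpos _).le
      · intro c
        rw [← Finset.sum_div]
        exact div_self (hVpos _).ne'
      · intro a
        have h1 : ∀ c : Fin t, v (Fin.cons a (X c)) / V (X c) ≤ 1 / t := by
          intro c
          rw [div_le_div_iff₀ (hVpos _) (by exact_mod_cast ht)]
          have := hline0 a (X c)
          linarith
        calc ∑ c, v (Fin.cons a (X c)) / V (X c) ≤ ∑ c : Fin t, (1 / t : ℝ) :=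
              Finset.sum_le_sum (fun c _ => h1 c)
          _ = 1 := by
            rw [Finset.sum_const, Finset.card_univ, Fintype.card_fin, nsmul_eq_mul]
            have : (t:ℝ) ≠ 0 := by
              have : (0:ℝ) < t := by exact_mod_cast ht
              exact this.ne'
            field_simp
      · intro τ hτ
        apply hθ (fun c => Fin.cons (τ c) (X c))
        intro c c' hcc i
        refine Fin.cases ?_ ?_ i
        · simpa using fun h => hcc (hτ h)
        · intro j
          simpa using hX c c' hcc j)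
    refine le_trans (le_of_eq ?_) hih
    apply Finset.sum_congr rfl
    intro z _
    simp only [hθ']
    rw [Finset.mul_sum]
    apply Finset.sum_congr rfl
    intro a _
    have := (hVpos z).ne'
    field_simp

end Pool.Agent.DPG
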