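import Pool.Agent.DPG.Kineq

namespace Pool.Agent.DPG

open Finset DPS

variable {n : ℕ}

theorem emc_shifted (k s : ℕ) (hk : 2 ≤ k) (hs : 1 ≤ s) (hn : (2*s+1)*(k-1)+s+1 ≤ n)
    {F : Finset (Finset (Fin n))} (hF : Shifted F) (hnu : NuLe s F)
    (hU : ∀ A ∈ F, A.card = k) :
    F.card ≤ (hitF k (pre s : Finset (Fin n))).card ∧
      (F.card = (hitF k (pre s : Finset (Fin n))).card → F = hitF k (pre s)) := by
  classical
  have hsn : s < n := by omega
  let el : ℕ → Fin n := fun j => ⟨min j s, by omega⟩
  have hel : ∀ j, (el j).val = min j s := fun j => rfl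
  have hks : k * (s+1) ≤ n := by
    have h1 : (s+1)*(k-1) ≤ (2*s+1)*(k-1) := Nat.mul_le_mul_right _ (by omega)
    have h2 : k * (s+1) = (s+1)*(k-1) + (s+1) := by
      obtain ⟨m, rfl⟩ : ∃ m, k = m+1 := ⟨k-1, by omega⟩
      simp only [Nat.add_sub_cancel]; ring
    omega
  have hshadow := wshadow hF s k hs hk hks hnu hU (el s) (by rw [hel, min_self])
    (fun _ => 1) (fun _ => 1) (fun _ => zero_le_one) (fun _ _ _ _ => le_rfl)
  have hsup := supply s (2*s+1) (2*s+1) k (by omega) (by omega) le_rfl hn hF hnu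
    (fun _ => 1) (fun _ _ _ => zero_lt_one) (fun _ _ _ _ _ _ _ _ _ => le_rfl) el hel
  set S : Finset (Fin n) := pre s with hS
  set Y : Finset (Finset (Fin n)) := powersetCard (k-1) (hiS (s+1) : Finset (Fin n)) with hY
  have helnot : ∀ (j : ℕ), ∀ H ∈ Y, el j ∉ H := by
    intro j H hH h
    have := (Finset.mem_powersetCard.mp hH).1 h
    rw [mem_hiS, hel] at this
    omega
  have hset : ((powersetCard (k-1) (univ : Finset (Fin n))).filter (fun H =>
        ((∀ x ∈ H, s + 1 ≤ x.val) ∧ insert (el s) H ∈ F))) =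
      Y.filter (fun H => insert (el s) H ∈ F) := by
    ext H
    simp only [hY, Finset.mem_filter, Finset.mem_powersetCard, Finset.subset_univ, true_and]
    constructor
    · rintro ⟨h3, h4, h5⟩
      exact ⟨⟨fun x hx => mem_hiS.mpr (h4 x hx), h3⟩, h5⟩
    · rintro ⟨⟨h3, h4⟩, h5⟩
      exact ⟨h4, fun x hx => mem_hiS.mp (h3 hx), h5⟩
  rw [hset] at hshadow
  set GF := Y.filter (fun H => insert (el s) H ∈ F) with hGF
  set HF := F.filter (fun C => ∀ x ∈ C, s + 1 ≤ x.val) with hHF
  set Dm : Finset (Finset (Fin n)) := F.filter (fun A => Disjoint A S) with hDm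
  set Ms : Finset (Finset (Fin n)) := (hitF k S).filter (fun A => A ∉ F) with hMs
  set Qi : Finset (Σ _ : ℕ, Finset (Fin n)) := (range s).sigma
    (fun j => Y.filter (fun H => insert (el j) H ∉ F)) with hQi
  set Qs : Finset (Finset (Fin n)) := Qi.image (fun p => insert (el p.1) p.2) with hQs
  have hQinj : Set.InjOn (fun p : (Σ _ : ℕ, Finset (Fin n)) => insert (el p.1) p.2)
      (Qi : Set (Σ _ : ℕ, Finset (Fin n))) := by
    rintro ⟨j, H⟩ hp ⟨j', H'⟩ hp' h
    rw [Finset.mem_coe, hQi, Finset.mem_sigma, Finset.mem_range, Finset.mem_filter] at hp hp'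
    simp only at hp hp' h
    have h1 : el j ∈ insert (el j') H' := by rw [← h]; exact Finset.mem_insert_self _ _
    rw [Finset.mem_insert] at h1
    have h2 : el j = el j' := h1.resolve_right (helnot j H' hp'.2.1)
    have h3 : j = j' := by
      have := congrArg Fin.val h2
      rw [hel, hel] at this
      omega
    subst h3
    have h4 : (insert (el j) H).erase (el j) = (insert (el j) H').erase (el j) := by rw [h]
    rw [Finset.erase_insert (helnot j H hp.2.1), Finset.erase_insert (helnot j H' hp'.2.1)] at h4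
    rw [h4]
  have hQM : Qs ⊆ Ms := by
    intro G hG
    rw [hQs, Finset.mem_image] at hG
    obtain ⟨⟨j, H⟩, hp, rfl⟩ := hG
    rw [hQi, Finset.mem_sigma, Finset.mem_range, Finset.mem_filter] at hp
    rw [hMs, Finset.mem_filter, mem_hitF]
    refine ⟨⟨?_, ?_⟩, hp.2.2⟩
    · rw [Finset.card_insert_of_notMem (helnot j H hp.2.1),
        (Finset.mem_powersetCard.mp hp.2.1).2]
      omega
    · rw [Finset.not_disjoint_iff]
      refine ⟨el j, Finset.mem_insert_self _ _, ?_⟩
      rw [hS, mem_pre, hel]
      have := hp.1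
      simp only at this
      omega
  have hQcard : Qs.card = ∑ j ∈ range s, (Y.filter (fun H => insert (el j) H ∉ F)).card := by
    rw [hQs, Finset.card_image_of_injOn hQinj, hQi, Finset.card_sigma]
  have hDcard : Dm.card ≤ HF.card + GF.card := by
    rw [← Finset.card_filter_add_card_filter_not (s := Dm) (fun A => el s ∉ A)]
    apply Nat.add_le_add
    · apply Finset.card_le_card
      intro A hA
      rw [Finset.mem_filter, hDm, Finset.mem_filter] at hA
      rw [hHF, Finset.mem_filter]
      refine ⟨hA.1.1, ?_⟩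
      intro x hx
      by_contra hlt
      have h1 : x.val ≠ s := by
        intro h
        apply hA.2
        have : el s = x := by ext; rw [hel, min_self, h]
        rw [this]; exact hx
      apply Finset.disjoint_left.mp hA.1.2 hx
      rw [hS, mem_pre]
      omega
    · apply Finset.card_le_card_of_injOn (fun A => A.erase (el s))
      · intro A hA
        rw [Finset.mem_coe, Finset.mem_filter, not_not, hDm, Finset.mem_filter] at hA
        rw [Finset.mem_coe, hGF, Finset.mem_filter, Finset.insert_erase hA.2, hY,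
          Finset.mem_powersetCard]
        refine ⟨⟨?_, ?_⟩, hA.1.1⟩
        · intro x hx
          rw [Finset.mem_erase] at hx
          rw [mem_hiS]
          by_contra hlt
          have h1 : x.val ≠ s := by
            intro h
            apply hx.1
            ext; rw [hel, min_self, h]
          apply Finset.disjoint_left.mp hA.1.2 hx.2
          rw [hS, mem_pre]
          omega
        · rw [Finset.card_erase_of_mem hA.2, hU A hA.1.1]
      · intro A hA B hB hAB
        rw [Finset.mem_coe, Finset.mem_filter, not_not] at hA hB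
        simp only at hAB
        rw [← Finset.insert_erase hA.2, hAB, Finset.insert_erase hB.2]
  have hFsplit : F.card = Dm.card + (F.filter (fun A => ¬ Disjoint A S)).card := by
    rw [hDm, Finset.card_filter_add_card_filter_not]
  have hBsplit : (hitF k S).card = Ms.card + (F.filter (fun A => ¬ Disjoint A S)).card := by
    rw [← Finset.card_filter_add_card_filter_not (s := hitF k S) (fun A => A ∉ F), ← hMs]
    congr 2
    ext A
    rw [Finset.mem_filter, Finset.mem_filter, mem_hitF, not_not]
    constructor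
    · rintro ⟨⟨_, h2⟩, h3⟩; exact ⟨h3, h2⟩
    · rintro ⟨h3, h2⟩; exact ⟨⟨hU A h3, h2⟩, h3⟩
  have hMQ := Finset.card_le_card hQM
  -- numbers
  simp only [Finset.sum_const, nsmul_eq_mul, mul_one] at hshadow hsup
  have h1 : ((s:ℝ)+1) * GF.card ≤ Qs.card := by
    rw [hQcard]
    push_cast at hsup ⊢
    linarith
  have h2 : ((k:ℝ)) * (HF.card + GF.card) ≤ ((k:ℝ)-1) * Qs.card := by
    have h3 : (2:ℝ) ≤ k := by exact_mod_cast hk
    have h4 : ((k:ℝ)-1) * (((s:ℝ)+1) * GF.card) ≤ ((k:ℝ)-1) * Qs.card :=
      mul_le_mul_of_nonneg_left h1 (by linarith)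
    have h5 : ((k:ℝ)) * (HF.card + GF.card) ≤ ((s:ℝ) * k - s - 1) * GF.card +
        k * GF.card := by rw [mul_add]; linarith
    have h6 : ((s:ℝ) * k - s - 1) * GF.card + k * GF.card =
        ((k:ℝ)-1) * (((s:ℝ)+1) * GF.card) := by ring
    linarith
  have hkpos : (0:ℝ) < k := by
    have : (2:ℝ) ≤ k := by exact_mod_cast hk
    linarith
  have hQ0 : (0:ℝ) ≤ Qs.card := Nat.cast_nonneg _
  have h3 : ((HF.card + GF.card : ℕ) : ℝ) ≤ Qs.card := by
    push_cast
    have : (k:ℝ) * (HF.card + GF.card) ≤ k * Qs.card := by linarith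
    exact le_of_mul_le_mul_left this hkpos
  have h3' : HF.card + GF.card ≤ Qs.card := by exact_mod_cast h3
  refine ⟨by omega, fun heq => ?_⟩
  have h4 : Qs.card ≤ HF.card + GF.card := by omega
  have h4R : (Qs.card : ℝ) ≤ HF.card + GF.card := by exact_mod_cast h4
  have h5 : (Qs.card : ℝ) ≤ 0 := by
    have := mul_le_mul_of_nonneg_left h4R hkpos.le
    linarith
  have h6 : Qs.card = 0 := by
    have : Qs.card ≤ 0 := by exact_mod_cast h5
    omega
  have h7 : Dm.card = 0 := by omega
  have h8 : F ⊆ hitF k S := by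
    intro A hA
    rw [mem_hitF]
    refine ⟨hU A hA, fun hd => ?_⟩
    rw [Finset.card_eq_zero] at h7
    have : A ∈ Dm := by rw [hDm, Finset.mem_filter]; exact ⟨hA, hd⟩
    rw [h7] at this
    exact absurd this (Finset.notMem_empty _)
  exact Finset.eq_of_subset_of_card_le h8 heq.symm.le

end Pool.Agent.DPG
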