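import Pool.Agent.DPG.Unshift

namespace Pool.Agent.DPG

open Finset DPS

variable {n : ℕ}

theorem descent_gen (k r s D2 B : ℕ) (hk : 2 ≤ k) (hs : 1 ≤ s)
    (hn : (2*s+1)*(k-1)+s+1 ≤ n)
    (hKs : ∀ F : Finset (Finset (Fin n)), Shifted F → NuLe s F → (∀ A ∈ F, A.card = k) →
      ∑ R ∈ powersetCard r (univ : Finset (Fin n)), (deg F R - D2) ≤ B) :
    ∀ (N : ℕ) (F : Finset (Finset (Fin n))), pot F = N → (∀ A ∈ F, A.card = k) →
    NuLe s F →
    ∑ R ∈ powersetCard r (univ : Finset (Fin n)), (deg F R - D2) ≤ B ∧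
    F.card ≤ n.choose k - (n-s).choose k ∧
    (F.card = n.choose k - (n-s).choose k → ∃ T : Finset (Fin n), T.card = s ∧ F = hitF k T) := by
  classical
  have hn1 : 3*(k-1)+s+1 ≤ n := by
    have : 3*(k-1) ≤ (2*s+1)*(k-1) := Nat.mul_le_mul_right _ (by omega)
    omega
  have hn2 : (s+1)*k ≤ n := by
    have h1 : (s+1)*(k-1) ≤ (2*s+1)*(k-1) := Nat.mul_le_mul_right _ (by omega)
    have h2 : (s+1)*k = (s+1)*(k-1) + (s+1) := by
      obtain ⟨m, rfl⟩ : ∃ m, k = m+1 := ⟨k-1, by omega⟩
      simp only [Nat.add_sub_cancel]; ring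
    omega
  intro N
  induction N using Nat.strong_induction_on with
  | _ N ih =>
    intro F hpot hU hnu
    by_cases hS : Shifted F
    · have h1 := hKs F hS hnu hU
      have h2 := emc_shifted k s hk hs hn hS hnu hU
      rw [card_hitF, card_pre (by omega)] at h2
      exact ⟨h1, h2.1, fun h => ⟨pre s, card_pre (by omega), h2.2 h⟩⟩
    · unfold Shifted at hS
      push Not at hS
      obtain ⟨A, hA, i, j, hij, hj, hi, hnot⟩ := hS
      rw [← sw_eq_insert hij.ne hj hi] at hnot
      have hlt := pot_sh hij F ⟨A, hA, hj, hi, hnot⟩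
      obtain ⟨h1, h2, h3⟩ := ih (pot (sh i j F)) (hpot ▸ hlt) (sh i j F) rfl
        (sh_unif i j F k hU) (sh_nu s i j F hnu)
      rw [card_sh] at h2 h3
      refine ⟨?_, h2, ?_⟩
      · refine le_trans (sum_major i j F r (fun x => x - D2) ?_) h1
        intro a b a' b' _ _ _
        omega
      · intro h
        obtain ⟨T, hT, hT2⟩ := h3 h
        exact unshift_gen k s hk hs hn1 hn2 i j hij.ne F hnu T hT hT2

theorem lpow_gen (k r s : ℕ) (p : ℝ) (hr : 1 ≤ r) (hrk : r + 1 ≤ k) (hs : 1 ≤ s)
    (hn : (2*s+1)*(k-1)+s+1 ≤ n) (hp : 1 ≤ p)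
    (hKs : ∀ F : Finset (Finset (Fin n)), Shifted F → NuLe s F → (∀ A ∈ F, A.card = k) →
      ∑ R ∈ powersetCard r (univ : Finset (Fin n)),
        (deg F R - ((n-r).choose (k-r) - (n-s-r).choose (k-r))) ≤
        (n.choose r - (n-s).choose r) * (n-s-r).choose (k-r))
    (F : Finset (Finset (Fin n))) (hU : ∀ A ∈ F, A.card = k) (hnu : NuLe s F)
    (S : Finset (Fin n)) (hS : S.card = s) :
    lpow r p F ≤ lpow r p (hitF k S) ∧
      (lpow r p F = lpow r p (hitF k S) → ∃ T : Finset (Fin n), T.card = s ∧ F = hitF k T) := by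
  classical
  obtain ⟨hK, hE, hEq⟩ := descent_gen k r s _ _ (by omega) hs hn hKs (pot F) F rfl hU hnu
  set E := (n-s-r).choose (k-r) with hEdef
  set D1 := (n-r).choose (k-r) with hD1
  set D2 := D1 - E with hD2
  have hkn : s + k ≤ n := by
    have : 1*(k-1) ≤ (2*s+1)*(k-1) := Nat.mul_le_mul_right _ (by omega)
    omega
  have hEpos : 0 < E := Nat.choose_pos (by omega)
  have hE1 : E < D1 := by
    have h1 : n - r = (n-r-1) + 1 := by omega
    have h2 : k - r = (k-r-1) + 1 := by omega
    have h3 : D1 = (n-r-1).choose (k-r-1) + (n-r-1).choose (k-r) := by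
      rw [hD1, h1, h2, Nat.choose_succ_succ]
      simp
    have h4 : 0 < (n-r-1).choose (k-r-1) := Nat.choose_pos (by omega)
    have h5 : E ≤ (n-r-1).choose (k-r) := Nat.choose_le_choose _ (by omega)
    omega
  have hD2pos : 0 < D2 := by omega
  have hD12 : D2 < D1 := by omega
  have hDE : D1 - D2 = E := by omega
  obtain ⟨a, b, ha, hb, hpt, e1, e2⟩ := pointwise p D1 D2 hp (by exact_mod_cast hD2pos)
    (by exact_mod_cast hD12)
  have hcast : ∀ m : ℕ, ((m - D2 : ℕ) : ℝ) = max ((m : ℝ) - D2) 0 := by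
    intro m
    rcases le_total D2 m with h | h
    · rw [Nat.cast_sub h, max_eq_left]
      have : (D2 : ℝ) ≤ m := by exact_mod_cast h
      linarith
    · rw [Nat.sub_eq_zero_of_le h, max_eq_right, Nat.cast_zero]
      have : (m : ℝ) ≤ D2 := by exact_mod_cast h
      linarith
  -- upper bound for `F`
  have hupF : lpow r p F ≤ a * (k.choose r * F.card) +
      b * ((n.choose r - (n-s).choose r : ℕ) * (E : ℕ)) := by
    have h1 : lpow r p F ≤ ∑ R ∈ powersetCard r (univ : Finset (Fin n)),
        (a * (deg F R : ℝ) + b * ((deg F R - D2 : ℕ) : ℝ)) := by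
      apply Finset.sum_le_sum
      intro R hR
      rw [Finset.mem_powersetCard] at hR
      rw [hcast]
      apply hpt
      · exact Nat.cast_nonneg _
      · have := deg_le k F hU R (by omega)
        rw [hR.2] at this
        exact_mod_cast this
    refine h1.trans ?_
    rw [Finset.sum_add_distrib, ← Finset.mul_sum, ← Finset.mul_sum]
    apply add_le_add
    · apply le_of_eq
      congr 1
      have := sum_deg_one k r F hU
      exact_mod_cast this
    · apply mul_le_mul_of_nonneg_left _ hb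
      exact_mod_cast hK
  -- value for the extremal family
  have hstar : lpow r p (hitF k S) = a * (k.choose r * (hitF k S).card) +
      b * ((n.choose r - (n-s).choose r : ℕ) * (E : ℕ)) := by
    have hUs : ∀ A ∈ hitF k S, A.card = k := fun A hA => (mem_hitF.mp hA).1
    have h1 : ∀ R ∈ powersetCard r (univ : Finset (Fin n)),
        (deg (hitF k S) R : ℝ) ^ p = a * (deg (hitF k S) R : ℝ) +
          b * ((if ¬ Disjoint R S then E else 0 : ℕ) : ℝ) := by
      intro R hR
      rw [Finset.mem_powersetCard] at hR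
      by_cases hzR : Disjoint R S
      · have h2 := deg_hit_notMem k S R (by omega) hzR
        rw [hR.2, hS] at h2
        have h3 : deg (hitF k S) R = D2 := by omega
        rw [h3, if_neg (by simpa using hzR)]
        simp only [Nat.cast_zero, mul_zero, add_zero]
        exact e2
      · have h2 := deg_hit_mem k S R (by omega) hzR
        rw [hR.2] at h2
        rw [h2, if_pos hzR, ← hDE, Nat.cast_sub hD12.le]
        exact e1
    unfold lpow
    rw [Finset.sum_congr rfl h1, Finset.sum_add_distrib, ← Finset.mul_sum, ← Finset.mul_sum]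
    congr 1
    · congr 1
      have := sum_deg_one k r (hitF k S) hUs
      exact_mod_cast this
    · congr 1
      rw [← Nat.cast_sum, ← Finset.sum_filter, Finset.sum_const, smul_eq_mul, card_hit, hS]
      push_cast
      ring
  have hcs := card_hitF k S
  rw [hS] at hcs
  have hcr : 0 < (k.choose r : ℝ) := by exact_mod_cast Nat.choose_pos (by omega : r ≤ k)
  have hE' : (F.card : ℝ) ≤ (hitF k S).card := by rw [hcs]; exact_mod_cast hE
  refine ⟨?_, ?_⟩
  · rw [hstar]
    refine hupF.trans ?_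
    have : a * (k.choose r * (F.card : ℝ)) ≤ a * (k.choose r * ((hitF k S).card : ℝ)) :=
      mul_le_mul_of_nonneg_left (mul_le_mul_of_nonneg_left hE' hcr.le) ha.le
    linarith
  · intro heq
    apply hEq
    rw [heq, hstar] at hupF
    have h1 : a * (k.choose r * ((hitF k S).card : ℝ)) ≤ a * (k.choose r * (F.card : ℝ)) := by
      linarith
    have h2 : ((hitF k S).card : ℝ) ≤ F.card :=
      le_of_mul_le_mul_left (le_of_mul_le_mul_left h1 ha) hcr
    have h3 : (hitF k S).card ≤ F.card := by exact_mod_cast h2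
    omega

/-- The partial range for general `s`. -/
theorem lpow_partial (k r s t w q : ℕ) (p : ℝ) (hr : 1 ≤ r) (hrk : r + 1 ≤ k) (hs : 1 ≤ s)
    (hn : (2*s+1)*(k-1)+s+1 ≤ n) (hp : 1 ≤ p) (hwk : w ≤ k - r)
    (h1 : (s+1)*(k-1) ≤ (t-s)*(r+w)) (h2 : (t-1)*(k-1+w) ≤ (q-1)*(k-1))
    (hnq : q*(k-1)+s+1 ≤ n)
    (F : Finset (Finset (Fin n))) (hU : ∀ A ∈ F, A.card = k) (hnu : NuLe s F)
    (S : Finset (Fin n)) (hS : S.card = s) :
    lpow r p F ≤ lpow r p (hitF k S) ∧
      (lpow r p F = lpow r p (hitF k S) → ∃ T : Finset (Fin n), T.card = s ∧ F = hitF k T) := by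
  classical
  apply lpow_gen k r s p hr hrk hs hn hp _ F hU hnu S hS
  intro F hF hnu hU
  have hsn : s < n := by omega
  let el : ℕ → Fin n := fun j => ⟨min j s, by omega⟩
  apply K_of_core k r s _ hr hrk hsn hU el (fun j => rfl)
  · have : (n-s-r).choose (k-r) ≤ (n-r).choose (k-r) := Nat.choose_le_choose _ (by omega)
    omega
  · exact core k r s t w q _ hr hrk hs hwk h1 h2 hnq hF hnu hU el (fun j => rfl)

end Pool.Agent.DPG
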