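import Pool.Agent.DPG.Core

namespace Pool.Agent.DPG

open Finset DPS

variable {n : ℕ}

/-- The sets of size `k` that meet `S`. -/
def hitF (k : ℕ) (S : Finset (Fin n)) : Finset (Finset (Fin n)) :=
  (powersetCard k (univ : Finset (Fin n))).filter (fun A => ¬ Disjoint A S)

theorem mem_hitF {k : ℕ} {S A : Finset (Fin n)} :
    A ∈ hitF k S ↔ A.card = k ∧ ¬ Disjoint A S := by
  simp [hitF, Finset.mem_powersetCard]

/-- Counting supersets inside a given set. -/
theorem card_sup_in (k : ℕ) (R T : Finset (Fin n)) (hRT : R ⊆ T) (h : R.card ≤ k) :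
    ((powersetCard k T).filter (fun A => R ⊆ A)).card =
      (T.card - R.card).choose (k - R.card) := by
  classical
  have h1 : (powersetCard (k - R.card) (T \ R)).card = (T.card - R.card).choose (k - R.card) := by
    rw [Finset.card_powersetCard, Finset.card_sdiff_of_subset hRT]
  rw [← h1]
  refine Finset.card_nbij' (fun A => A \ R) (fun B => B ∪ R) ?_ ?_ ?_ ?_
  · intro A hA
    rw [Finset.mem_coe, Finset.mem_filter, Finset.mem_powersetCard] at hA
    rw [Finset.mem_coe, Finset.mem_powersetCard]
    refine ⟨Finset.sdiff_subset_sdiff hA.1.1 (Finset.Subset.refl _), ?_⟩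
    rw [Finset.card_sdiff_of_subset hA.2, hA.1.2]
  · intro B hB
    rw [Finset.mem_coe, Finset.mem_powersetCard] at hB
    rw [Finset.mem_coe, Finset.mem_filter, Finset.mem_powersetCard]
    refine ⟨⟨Finset.union_subset (hB.1.trans Finset.sdiff_subset) hRT, ?_⟩,
      Finset.subset_union_right⟩
    rw [Finset.card_union_of_disjoint, hB.2]
    · omega
    · rw [Finset.disjoint_left]
      intro x hx
      exact (Finset.mem_sdiff.mp (hB.1 hx)).2
  · intro A hA
    rw [Finset.mem_coe, Finset.mem_filter] at hA
    exact Finset.sdiff_union_of_subset hA.2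
  · intro B hB
    rw [Finset.mem_coe, Finset.mem_powersetCard] at hB
    ext x
    simp only [Finset.mem_sdiff, Finset.mem_union]
    constructor
    · rintro ⟨h | h, h'⟩
      · exact h
      · exact absurd h h'
    · intro h
      exact ⟨Or.inl h, (Finset.mem_sdiff.mp (hB.1 h)).2⟩

theorem card_sup_disj (k : ℕ) (R S : Finset (Fin n)) (hRS : Disjoint R S) (h : R.card ≤ k) :
    ((powersetCard k (univ : Finset (Fin n))).filter (fun A => Disjoint A S ∧ R ⊆ A)).card =
      (n - S.card - R.card).choose (k - R.card) := by
  classical
  have h1 : (powersetCard k (univ : Finset (Fin n))).filter (fun A => Disjoint A S ∧ R ⊆ A) =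
      (powersetCard k (univ \ S)).filter (fun A => R ⊆ A) := by
    ext A
    simp only [Finset.mem_filter, Finset.mem_powersetCard, Finset.subset_univ, true_and,
      Finset.subset_sdiff]
    tauto
  rw [h1, card_sup_in k R _ (by
    rw [Finset.subset_sdiff]; exact ⟨Finset.subset_univ _, hRS⟩) h,
    Finset.card_sdiff_of_subset (Finset.subset_univ _), Finset.card_univ, Fintype.card_fin]

theorem deg_hit_mem (k : ℕ) (S R : Finset (Fin n)) (hR : R.card ≤ k) (h : ¬ Disjoint R S) :
    deg (hitF k S) R = (n - R.card).choose (k - R.card) := by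
  classical
  unfold deg hitF
  rw [← card_sup k R hR, Finset.filter_filter]
  congr 1
  apply Finset.filter_congr
  intro A _
  constructor
  · exact fun h => h.2
  · intro h'
    refine ⟨fun hd => h (Finset.disjoint_of_subset_left h' hd), h'⟩

theorem deg_hit_notMem (k : ℕ) (S R : Finset (Fin n)) (hR : R.card ≤ k) (h : Disjoint R S) :
    deg (hitF k S) R + (n - S.card - R.card).choose (k - R.card) =
      (n - R.card).choose (k - R.card) := by
  classical
  rw [← card_sup_disj k R S h hR, ← card_sup k R hR]
  unfold deg hitF
  rw [Finset.filter_filter, ← Finset.card_union_of_disjoint]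
  · congr 1
    ext A
    simp only [Finset.mem_union, Finset.mem_filter, Finset.mem_powersetCard]
    tauto
  · rw [Finset.disjoint_left]
    intro A hA hA'
    rw [Finset.mem_filter] at hA hA'
    exact hA.2.1 hA'.2.1

theorem card_hit (r : ℕ) (S : Finset (Fin n)) :
    ((powersetCard r (univ : Finset (Fin n))).filter (fun R => ¬ Disjoint R S)).card =
      n.choose r - (n - S.card).choose r := by
  classical
  have h1 := Finset.card_filter_add_card_filter_not
    (s := powersetCard r (univ : Finset (Fin n))) (fun R => Disjoint R S)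
  have h2 : (powersetCard r (univ : Finset (Fin n))).filter (fun R => Disjoint R S) =
      powersetCard r (univ \ S) := by
    ext A
    simp only [Finset.mem_filter, Finset.mem_powersetCard, Finset.subset_univ, true_and,
      Finset.subset_sdiff]
    tauto
  rw [h2, Finset.card_powersetCard, Finset.card_powersetCard,
    Finset.card_sdiff_of_subset (Finset.subset_univ _), Finset.card_univ, Fintype.card_fin] at h1
  omega

/-- The `K` inequality for shifted families, from the core inequality. -/
theorem K_of_core (k r s D2 : ℕ) (hr : 1 ≤ r) (hrk : r + 1 ≤ k) (hsn : s < n)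
    {F : Finset (Finset (Fin n))} (hU : ∀ A ∈ F, A.card = k)
    (el : ℕ → Fin n) (hel : ∀ j, (el j).val = min j s)
    (hD2 : D2 + (n-s-r).choose (k-r) = (n-r).choose (k-r))
    (hcore : (∑ C ∈ F with ∀ x ∈ C, s + 1 ≤ x.val, cnt r D2 F C) +
      ∑ H ∈ powersetCard (k-1) (hiS (s+1) : Finset (Fin n)) with insert (el s) H ∈ F,
        ((k-1).choose (r-1) + cnt r D2 F H) ≤
      ∑ j ∈ range s, ∑ H ∈ powersetCard (k-1) (hiS (s+1) : Finset (Fin n)) with
        insert (el j) H ∉ F, ((k-1).choose (r-1) + cnt r D2 F H)) :
    ∑ R ∈ powersetCard r (univ : Finset (Fin n)), (deg F R - D2) ≤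
      (n.choose r - (n-s).choose r) * (n-s-r).choose (k-r) := by
  classical
  set E := (n-s-r).choose (k-r) with hE
  set S : Finset (Fin n) := pre s with hS
  have hScard : S.card = s := card_pre hsn.le
  set Y : Finset (Finset (Fin n)) := powersetCard (k-1) (hiS (s+1) : Finset (Fin n)) with hY
  have helnot : ∀ (j : ℕ), ∀ H ∈ Y, el j ∉ H := by
    intro j H hH h
    have := (Finset.mem_powersetCard.mp hH).1 h
    rw [mem_hiS, hel] at this
    omega
  -- the three families
  set Dm : Finset (Finset (Fin n)) := F.filter (fun A => Disjoint A S) with hDm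
  set Ms : Finset (Finset (Fin n)) := (hitF k S).filter (fun A => A ∉ F) with hMs
  set Qi : Finset (Σ _ : ℕ, Finset (Fin n)) := (range s).sigma
    (fun j => Y.filter (fun H => insert (el j) H ∉ F)) with hQi
  set Qs : Finset (Finset (Fin n)) := Qi.image (fun p => insert (el p.1) p.2) with hQs
  have hQinj : Set.InjOn (fun p : (Σ _ : ℕ, Finset (Fin n)) => insert (el p.1) p.2)
      (Qi : Set (Σ _ : ℕ, Finset (Fin n))) := by
    rintro ⟨j, H⟩ hp ⟨j', H'⟩ hp' h
    rw [Finset.mem_coe, hQi, Finset.mem_sigma, Finset.mem_range, Finset.mem_filter] at hp hp'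
    simp only at hp hp' h
    have h1 : el j ∈ insert (el j') H' := by rw [← h]; exact Finset.mem_insert_self _ _
    rw [Finset.mem_insert] at h1
    have h2 : el j = el j' := h1.resolve_right (helnot j H' hp'.2.1)
    have h3 : j = j' := by
      have := congrArg Fin.val h2
      rw [hel, hel] at this
      omega
    subst h3
    have h4 : (insert (el j) H).erase (el j) = (insert (el j) H').erase (el j) := by rw [h]
    rw [Finset.erase_insert (helnot j H hp.2.1), Finset.erase_insert (helnot j H' hp'.2.1)] at h4
    rw [h4]
  have hmemQ : ∀ G ∈ Qs, ∃ j, j < s ∧ ∃ H ∈ Y, G = insert (el j) H ∧ G ∉ F := by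
    intro G hG
    rw [hQs, Finset.mem_image] at hG
    obtain ⟨⟨j, H⟩, hp, rfl⟩ := hG
    rw [hQi, Finset.mem_sigma, Finset.mem_range, Finset.mem_filter] at hp
    exact ⟨j, hp.1, H, hp.2.1, rfl, hp.2.2⟩
  have hQM : Qs ⊆ Ms := by
    intro G hG
    obtain ⟨j, hj, H, hH, rfl, hGF⟩ := hmemQ G hG
    rw [hMs, Finset.mem_filter, mem_hitF]
    refine ⟨⟨?_, ?_⟩, hGF⟩
    · rw [Finset.card_insert_of_notMem (helnot j H hH), (Finset.mem_powersetCard.mp hH).2]
      omega
    · rw [Finset.not_disjoint_iff]
      refine ⟨el j, Finset.mem_insert_self _ _, ?_⟩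
      rw [hS, mem_pre, hel]
      omega
  -- degrees
  have hdeg : ∀ R, deg F R + deg Ms R = deg (hitF k S) R + deg Dm R := by
    intro R
    have e1 : deg F R = deg Dm R + (F.filter (fun A => ¬ Disjoint A S ∧ R ⊆ A)).card := by
      unfold deg
      rw [hDm, Finset.filter_filter, ← Finset.card_union_of_disjoint]
      · congr 1
        ext A
        simp only [Finset.mem_union, Finset.mem_filter]
        tauto
      · rw [Finset.disjoint_left]
        intro A hA hA'
        rw [Finset.mem_filter] at hA hA'
        exact hA'.2.1 hA.2.1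
    have e2 : deg (hitF k S) R = deg Ms R +
        (F.filter (fun A => ¬ Disjoint A S ∧ R ⊆ A)).card := by
      unfold deg
      rw [hMs, Finset.filter_filter, ← Finset.card_union_of_disjoint]
      · congr 1
        ext A
        simp only [Finset.mem_union, Finset.mem_filter, mem_hitF]
        constructor
        · rintro ⟨⟨h1, h2⟩, h3⟩
          by_cases hA : A ∈ F
          · right; exact ⟨hA, h2, h3⟩
          · left; exact ⟨⟨h1, h2⟩, hA, h3⟩
        · rintro (⟨⟨h1, h2⟩, _, h3⟩ | ⟨h1, h2, h3⟩)
          · exact ⟨⟨h1, h2⟩, h3⟩
          · exact ⟨⟨hU A h1, h2⟩, h3⟩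
      · rw [Finset.disjoint_left]
        intro A hA hA'
        rw [Finset.mem_filter] at hA hA'
        exact hA.2.1 hA'.1
    omega
  have hdegQM : ∀ R, deg Qs R ≤ deg Ms R := by
    intro R
    exact Finset.card_le_card (Finset.filter_subset_filter _ hQM)
  have hdegQE : ∀ R : Finset (Fin n), R.card = r → ¬ Disjoint R S → deg Qs R ≤ E := by
    intro R hR hRS
    rw [Finset.not_disjoint_iff] at hRS
    obtain ⟨x, hxR, hxS⟩ := hRS
    rw [hS, mem_pre] at hxS
    have hsub : Qs.filter (fun A => R ⊆ A) ⊆
        (powersetCard k (insert x (hiS (s+1)))).filter (fun A => insert x (R.erase x) ⊆ A) := by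
      intro G hG
      rw [Finset.mem_filter] at hG
      obtain ⟨j, hj, H, hH, hGe, _⟩ := hmemQ G hG.1
      have hM := hQM hG.1
      rw [hMs, Finset.mem_filter, mem_hitF] at hM
      have hH' := Finset.mem_powersetCard.mp hH
      have hxG : x ∈ G := hG.2 hxR
      rw [hGe, Finset.mem_insert] at hxG
      have hxj : x = el j := by
        rcases hxG with h | h
        · exact h
        · have := hH'.1 h
          rw [mem_hiS] at this
          omega
      rw [Finset.mem_filter, Finset.mem_powersetCard, Finset.insert_erase hxR]
      refine ⟨⟨?_, hM.1.1⟩, hG.2⟩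
      rw [hGe, hxj]
      exact Finset.insert_subset_insert _ hH'.1
    have hcs := Finset.card_le_card hsub
    rw [Finset.insert_erase hxR] at hcs
    by_cases hRsub : R ⊆ insert x (hiS (s+1))
    · rw [card_sup_in k R _ hRsub (by omega)] at hcs
      have hcard : (insert x (hiS (s+1)) : Finset (Fin n)).card = n - s := by
        rw [Finset.card_insert_of_notMem (by rw [mem_hiS]; omega)]
        have h1 : (hiS (s+1) : Finset (Fin n)) = univ \ pre (s+1) := by
          ext y
          simp only [mem_hiS, Finset.mem_sdiff, Finset.mem_univ, true_and, mem_pre, not_lt]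
        rw [h1, Finset.card_sdiff_of_subset (Finset.subset_univ _), Finset.card_univ,
          Fintype.card_fin, card_pre (by omega)]
        omega
      rw [hcard, hR] at hcs
      exact hcs
    · have : (powersetCard k (insert x (hiS (s+1)))).filter (fun A => R ⊆ A) = ∅ := by
        rw [Finset.filter_eq_empty_iff]
        intro A hA hRA
        exact hRsub (hRA.trans (Finset.mem_powersetCard.mp hA).1)
      rw [this, Finset.card_empty] at hcs
      exact hcs.trans (Nat.zero_le _)
  -- pointwise inequality
  have hpt : ∀ R ∈ powersetCard r (univ : Finset (Fin n)),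
      (deg F R - D2) + (if (D2 < deg F R ∨ ¬ Disjoint R S) then 1 else 0) * deg Qs R ≤
      (if ¬ Disjoint R S then E else 0) + (if D2 < deg F R then 1 else 0) * deg Dm R := by
    intro R hR
    rw [Finset.mem_powersetCard] at hR
    have h1 := hdeg R
    have h2 := hdegQM R
    by_cases hRS : Disjoint R S
    · have h3 := deg_hit_notMem k S R (by omega) hRS
      rw [hScard, hR.2] at h3
      by_cases h : D2 < deg F R
      · simp only [h, hRS, not_true_eq_false, or_false, if_true, if_false]
        omega
      · simp only [h, hRS, not_true_eq_false, or_false, if_false]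
        omega
    · have h3 := deg_hit_mem k S R (by omega) hRS
      rw [hR.2] at h3
      have h4 := hdegQE R hR.2 hRS
      by_cases h : D2 < deg F R
      · simp only [h, hRS, not_false_eq_true, or_true, if_true]
        omega
      · simp only [h, hRS, not_false_eq_true, or_true, if_true, if_false]
        omega
  have hsum := Finset.sum_le_sum hpt
  rw [Finset.sum_add_distrib, Finset.sum_add_distrib, ← Finset.sum_filter, Finset.sum_const,
    smul_eq_mul, card_hit, hScard,
    ← sum_deg r Qs (fun R => if (D2 < deg F R ∨ ¬ Disjoint R S) then 1 else 0),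
    ← sum_deg r Dm (fun R => if D2 < deg F R then 1 else 0)] at hsum
  -- the demand
  have hdem : ∑ A ∈ Dm, ∑ R ∈ powersetCard r A, (if D2 < deg F R then 1 else 0) ≤
      (∑ C ∈ F with ∀ x ∈ C, s + 1 ≤ x.val, cnt r D2 F C) +
      ∑ H ∈ Y with insert (el s) H ∈ F, ((k-1).choose (r-1) + cnt r D2 F H) := by
    have e0 : ∀ A ∈ Dm, ∑ R ∈ powersetCard r A, (if D2 < deg F R then 1 else 0) =
        cnt r D2 F A := by
      intro A _
      unfold cnt
      rw [Finset.card_filter]
    rw [Finset.sum_congr rfl e0, ← Finset.sum_filter_add_sum_filter_not Dm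
      (fun A => el s ∉ A)]
    apply Nat.add_le_add
    · apply Finset.sum_le_sum_of_subset
      intro A hA
      rw [Finset.mem_filter, hDm, Finset.mem_filter] at hA
      rw [Finset.mem_filter]
      refine ⟨hA.1.1, ?_⟩
      intro x hx
      by_contra hlt
      have h1 : x.val ≠ s := by
        intro h
        apply hA.2
        have : el s = x := by ext; rw [hel, min_self, h]
        rw [this]; exact hx
      apply Finset.disjoint_left.mp hA.1.2 hx
      rw [hS, mem_pre]
      omega
    · have hinj : Set.InjOn (fun H : Finset (Fin n) => insert (el s) H)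
          (Y.filter (fun H => insert (el s) H ∈ F) : Set (Finset (Fin n))) := by
        intro H hH H' hH' h
        rw [Finset.mem_coe, Finset.mem_filter] at hH hH'
        have h4 : (insert (el s) H).erase (el s) = (insert (el s) H').erase (el s) := by
          simp only at h
          rw [h]
        rwa [Finset.erase_insert (helnot s H hH.1), Finset.erase_insert (helnot s H' hH'.1)]
          at h4
      calc ∑ A ∈ Dm with ¬ el s ∉ A, cnt r D2 F A
          ≤ ∑ A ∈ (Y.filter (fun H => insert (el s) H ∈ F)).image
            (fun H => insert (el s) H), cnt r D2 F A := by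
            apply Finset.sum_le_sum_of_subset
            intro A hA
            rw [Finset.mem_filter, not_not, hDm, Finset.mem_filter] at hA
            rw [Finset.mem_image]
            refine ⟨A.erase (el s), ?_, Finset.insert_erase hA.2⟩
            rw [Finset.mem_filter, Finset.insert_erase hA.2, hY, Finset.mem_powersetCard]
            refine ⟨⟨?_, ?_⟩, hA.1.1⟩
            · intro x hx
              rw [Finset.mem_erase] at hx
              rw [mem_hiS]
              by_contra hlt
              have h1 : x.val ≠ s := by
                intro h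
                apply hx.1
                ext; rw [hel, min_self, h]
              apply Finset.disjoint_left.mp hA.1.2 hx.2
              rw [hS, mem_pre]
              omega
            · rw [Finset.card_erase_of_mem hA.2, hU A hA.1.1]
        _ = ∑ H ∈ Y with insert (el s) H ∈ F, cnt r D2 F (insert (el s) H) := by
            rw [Finset.sum_image hinj]
        _ ≤ _ := by
            apply Finset.sum_le_sum
            intro H hH
            rw [Finset.mem_filter] at hH
            have h1 := cnt_insert_le (r-1) D2 F H (el s) (helnot s H hH.1)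
            rw [(Finset.mem_powersetCard.mp hH.1).2] at h1
            have h2 : r - 1 + 1 = r := by omega
            rwa [h2] at h1
  -- the supply
  have hsup : ∑ j ∈ range s, ∑ H ∈ Y with insert (el j) H ∉ F,
        ((k-1).choose (r-1) + cnt r D2 F H) ≤
      ∑ A ∈ Qs, ∑ R ∈ powersetCard r A, (if (D2 < deg F R ∨ ¬ Disjoint R S) then 1 else 0) := by
    rw [hQs, Finset.sum_image hQinj, hQi, Finset.sum_sigma]
    apply Finset.sum_le_sum
    intro j hj
    rw [Finset.mem_range] at hj
    apply Finset.sum_le_sum
    intro H hH
    rw [Finset.mem_filter] at hH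
    have hjH := helnot j H hH.1
    have helS : el j ∈ S := by rw [hS, mem_pre, hel]; omega
    simp only
    rw [← Finset.card_filter]
    have h2 : r = (r - 1) + 1 := by omega
    have h3 : (powersetCard (r-1) H).image (insert (el j)) ∪
        (powersetCard r H).filter (fun R => D2 < deg F R) ⊆
        (powersetCard r (insert (el j) H)).filter
          (fun R => D2 < deg F R ∨ ¬ Disjoint R S) := by
      intro R hR
      rw [Finset.mem_union, Finset.mem_image, Finset.mem_filter, Finset.mem_powersetCard] at hR
      rw [Finset.mem_filter, Finset.mem_powersetCard]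
      rcases hR with ⟨Q, hQ, rfl⟩ | ⟨⟨h4, h5⟩, h6⟩
      · rw [Finset.mem_powersetCard] at hQ
        refine ⟨⟨Finset.insert_subset_insert _ hQ.1, ?_⟩, Or.inr ?_⟩
        · rw [Finset.card_insert_of_notMem (fun h => hjH (hQ.1 h)), hQ.2]
          omega
        · rw [Finset.not_disjoint_iff]
          exact ⟨el j, Finset.mem_insert_self _ _, helS⟩
      · exact ⟨⟨h4.trans (Finset.subset_insert _ _), h5⟩, Or.inl h6⟩
    refine le_trans ?_ (Finset.card_le_card h3)
    rw [Finset.card_union_of_disjoint]
    · apply Nat.add_le_add
      · rw [Finset.card_image_of_injOn, Finset.card_powersetCard,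
          (Finset.mem_powersetCard.mp hH.1).2]
        intro Q hQ Q' hQ' h
        rw [Finset.mem_coe, Finset.mem_powersetCard] at hQ hQ'
        have h4 : (insert (el j) Q).erase (el j) = (insert (el j) Q').erase (el j) := by
          rw [h]
        rwa [Finset.erase_insert (fun h => hjH (hQ.1 h)),
          Finset.erase_insert (fun h => hjH (hQ'.1 h))] at h4
      · exact le_rfl
    · rw [Finset.disjoint_left]
      intro R hR hR'
      rw [Finset.mem_image] at hR
      obtain ⟨Q, _, rfl⟩ := hR
      rw [Finset.mem_filter, Finset.mem_powersetCard] at hR'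
      exact hjH (hR'.1.1 (Finset.mem_insert_self _ _))
  omega

end Pool.Agent.DPG
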