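import Pool.Agent.DPS.Final

namespace Pool.Agent.DPG

open Finset DPS

variable {n : ℕ}

/-- Every subfamily of pairwise disjoint members has at most `s` members. -/
def NuLe (s : ℕ) (F : Finset (Finset (Fin n))) : Prop :=
  ∀ M : Finset (Finset (Fin n)), M ⊆ F →
    (∀ A ∈ M, ∀ B ∈ M, A ≠ B → Disjoint A B) → M.card ≤ s

theorem nu_fun {s : ℕ} {F : Finset (Finset (Fin n))} (h : NuLe s F)
    (H : Fin (s+1) → Finset (Fin n)) (hH : ∀ j, H j ∈ F) (hne : ∀ j, (H j).Nonempty)
    (hd : ∀ i j, i ≠ j → Disjoint (H i) (H j)) : False := by
  classical
  have hinj : Function.Injective H := by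
    intro i j hij
    by_contra hc
    have := hd i j hc
    rw [hij, disjoint_self] at this
    exact (hne j).ne_empty this
  have h1 := h (univ.image H) (by
    intro A hA
    rw [Finset.mem_image] at hA
    obtain ⟨j, _, rfl⟩ := hA
    exact hH j) (by
    intro A hA B hB hAB
    rw [Finset.mem_image] at hA hB
    obtain ⟨i, _, rfl⟩ := hA
    obtain ⟨j, _, rfl⟩ := hB
    exact hd i j (fun h => hAB (h ▸ rfl)))
  rw [Finset.card_image_of_injective _ hinj, Finset.card_univ, Fintype.card_fin] at h1
  omega

theorem sh_nu (s : ℕ) (i j : Fin n) (F : Finset (Finset (Fin n))) (h : NuLe s F) :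
    NuLe s (sh i j F) := by
  classical
  intro M hM hd
  by_cases hMF : M ⊆ F
  · exact h M hMF hd
  · rw [Finset.not_subset] at hMF
    obtain ⟨A₀, hA₀M, hA₀F⟩ := hMF
    have hA := hM hA₀M
    rw [mem_sh] at hA
    have h1 : ¬ (j ∈ A₀ ∧ i ∉ A₀) := fun h => hA₀F (hA.1 h).1
    have h2 : sw i j A₀ ∈ F := (hA.2 h1).resolve_left hA₀F
    have h3 : i ∈ A₀ ∧ j ∉ A₀ := by
      by_contra hcon
      have : (i ∈ A₀ ↔ j ∈ A₀) := by tauto
      rw [sw_eq_self this] at h2
      exact hA₀F h2
    have h4 : ∀ B ∈ M, sw i j B ∈ F := by
      intro B hB
      by_cases hBA : B = A₀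
      · subst hBA; exact h2
      · have h5 : i ∉ B := fun h => (Finset.disjoint_left.mp (hd _ hB _ hA₀M hBA) h) h3.1
        have hB' := hM hB
        rw [mem_sh] at hB'
        by_cases hjB : j ∈ B
        · exact (hB'.1 ⟨hjB, h5⟩).2
        · have h6 : sw i j B = B := sw_eq_self (by simp [h5, hjB])
          have h7 := hB'.2 (fun h => hjB h.1)
          rw [h6] at h7 ⊢
          exact h7.elim id id
    have h8 := h (M.image (sw i j)) (by
      intro C hC
      rw [Finset.mem_image] at hC
      obtain ⟨B, hB, rfl⟩ := hC
      exact h4 B hB) (by
      intro C hC D hD hCD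
      rw [Finset.mem_image] at hC hD
      obtain ⟨B, hB, rfl⟩ := hC
      obtain ⟨B', hB', rfl⟩ := hD
      exact disj_sw (hd B hB B' hB' (fun h => hCD (h ▸ rfl))))
    rwa [Finset.card_image_of_injective] at h8
    intro B B' h
    rw [← sw_sw i j B, h, sw_sw]

theorem shifted_le {F : Finset (Finset (Fin n))} (hF : Shifted F) (k : ℕ)
    (g h : Fin k → Fin n) (hg : StrictMono g) (hh : StrictMono h) (hle : ∀ i, h i ≤ g i)
    (hgF : univ.image g ∈ F) : univ.image h ∈ F := by
  classical
  have key : ∀ m, m ≤ k → univ.image (fun i : Fin k => if i.val < m then h i else g i) ∈ F := by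
    intro m
    induction m with
    | zero =>
      intro _
      simpa using hgF
    | succ m ih =>
      intro hm
      have h1 := ih (by omega)
      set c : Fin k := ⟨m, by omega⟩ with hc
      by_cases heq : h c = g c
      · have : (fun i : Fin k => if i.val < m + 1 then h i else g i) =
            (fun i : Fin k => if i.val < m then h i else g i) := by
          funext i
          by_cases hi : i.val = m
          · have : i = c := by ext; exact hi
            subst this
            simp [heq]
          · by_cases hi2 : i.val < m
            · simp [hi2, Nat.lt_succ_of_lt hi2]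
            · have : ¬ i.val < m + 1 := by omega
              simp [hi2, this]
        rw [this]; exact h1
      · have hlt : h c < g c := lt_of_le_of_ne (hle c) heq
        have h2 : g c ∈ univ.image (fun i : Fin k => if i.val < m then h i else g i) := by
          rw [Finset.mem_image]
          exact ⟨c, Finset.mem_univ _, by simp [hc]⟩
        have h3 : h c ∉ univ.image (fun i : Fin k => if i.val < m then h i else g i) := by
          rw [Finset.mem_image]
          rintro ⟨i, _, hi⟩
          by_cases him : i.val < m
          · simp only [him, if_true] at hi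
            have : i < c := him
            exact absurd hi (hh this).ne
          · simp only [him, if_false] at hi
            have : c ≤ i := by
              rw [Fin.le_def]; simp only [hc]; omega
            have h4 := hg.monotone this
            rw [hi] at h4
            exact absurd hlt (not_lt.mpr h4)
        have h5 := hF _ h1 (h c) (g c) hlt h2 h3
        convert h5 using 1
        ext y
        simp only [Finset.mem_image, Finset.mem_univ, true_and, Finset.mem_insert,
          Finset.mem_erase]
        constructor
        · rintro ⟨i, rfl⟩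
          by_cases hi : i.val = m
          · have : i = c := by ext; exact hi
            subst this
            left; simp [hc]
          · right
            by_cases hi2 : i.val < m
            · simp only [Nat.lt_succ_of_lt hi2, if_true]
              refine ⟨?_, i, by simp [hi2]⟩
              have : i < c := hi2
              have h6 := hh this
              exact (h6.trans hlt).ne
            · have hi3 : ¬ i.val < m + 1 := by omega
              simp only [hi3, if_false]
              refine ⟨?_, i, by simp [hi2]⟩
              intro h7
              have := hg.injective h7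
              subst this
              exact hi rfl
        · rintro (rfl | ⟨hy, i, rfl⟩)
          · exact ⟨c, by simp [hc]⟩
          · by_cases hi2 : i.val < m
            · exact ⟨i, by simp [hi2, Nat.lt_succ_of_lt hi2]⟩
            · simp only [hi2, if_false] at hy ⊢
              have : ¬ i.val < m + 1 := by
                intro h6
                apply hy
                have : i = c := by ext; simp only [hc]; omega
                rw [this]
              exact ⟨i, by simp [this]⟩
  have := key k le_rfl
  simpa using this

theorem exists_hit {F : Finset (Finset (Fin n))} (hF : Shifted F) (s k : ℕ) (hk : 1 ≤ k)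
    (hn : k * (s+1) ≤ n) (hnu : NuLe s F) {C : Finset (Fin n)} (hC : C ∈ F)
    (hcard : C.card = k) : ∃ i, 1 ≤ i ∧ i ≤ k ∧ i ≤ hc C (i*(s+1)-1) := by
  classical
  by_contra hcon
  push Not at hcon
  let g := C.orderEmbOfFin hcard
  have himg : univ.image g = C := by
    rw [← Finset.coe_inj, Finset.coe_image, Finset.coe_univ, Set.image_univ]
    exact Finset.range_orderEmbOfFin C hcard
  have hglow : ∀ a : Fin k, (a.val+1)*(s+1) - 1 ≤ (g a).val := by
    intro a
    by_contra hlt
    push Not at hlt
    have h1 := hcon (a.val+1) (by omega) (by have := a.2; omega)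
    have h2 : (Finset.Iic a).image g ⊆ C ∩ pre ((a.val+1)*(s+1) - 1) := by
      intro y hy
      rw [Finset.mem_image] at hy
      obtain ⟨b, hb, rfl⟩ := hy
      rw [Finset.mem_Iic] at hb
      rw [Finset.mem_inter, mem_pre]
      refine ⟨Finset.orderEmbOfFin_mem C hcard b, ?_⟩
      have : g b ≤ g a := g.monotone hb
      rw [Fin.le_def] at this
      omega
    have h3 := Finset.card_le_card h2
    rw [Finset.card_image_of_injective _ g.injective, Fin.card_Iic] at h3
    unfold hc at h1
    omega
  have hbd : ∀ (j : Fin (s+1)) (a : Fin k), a.val * (s+1) + j.val < n := by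
    intro j a
    have h1 := j.2
    have h2 : (a.val + 1) * (s+1) ≤ k * (s+1) := Nat.mul_le_mul_right _ a.2
    have h3 : (a.val + 1) * (s+1) = a.val * (s+1) + (s+1) := by ring
    omega
  let T : Fin (s+1) → Finset (Fin n) := fun j =>
    univ.image (fun a : Fin k => (⟨a.val * (s+1) + j.val, hbd j a⟩ : Fin n))
  apply nu_fun hnu T
  · intro j
    apply shifted_le hF k g _ g.strictMono
    · intro a b hab
      rw [Fin.lt_def]
      have : (a.val + 1) * (s+1) ≤ b.val * (s+1) := Nat.mul_le_mul_right _ hab
      have h3 : (a.val + 1) * (s+1) = a.val * (s+1) + (s+1) := by ring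
      change a.val * (s+1) + j.val < b.val * (s+1) + j.val
      omega
    · intro a
      rw [Fin.le_def]
      change a.val * (s+1) + j.val ≤ _
      have h1 := hglow a
      have h2 := j.2
      have h3 : (a.val + 1) * (s+1) = a.val * (s+1) + (s+1) := by ring
      omega
    · rw [himg]; exact hC
  · intro j
    exact ⟨_, Finset.mem_image_of_mem _ (Finset.mem_univ (⟨0, hk⟩ : Fin k))⟩
  · intro i j hij
    rw [Finset.disjoint_left]
    intro x hx hx'
    rw [Finset.mem_image] at hx hx'
    obtain ⟨a, _, rfl⟩ := hx
    obtain ⟨b, _, hb⟩ := hx'
    have hb' : b.val * (s+1) + j.val = a.val * (s+1) + i.val := congrArg Fin.val hb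
    apply hij
    have h1 := i.2
    have h2 := j.2
    have e1 : (b.val * (s+1) + j.val) % (s+1) = j.val := by
      rw [Nat.mul_add_mod_of_lt h2]
    have e2 : (a.val * (s+1) + i.val) % (s+1) = i.val := by
      rw [Nat.mul_add_mod_of_lt h1]
    ext
    rw [← e1, ← e2, hb']

end Pool.Agent.DPG
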