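import Pool.Agent.DPG.Nu

namespace Pool.Agent.DPG

open Finset DPS

variable {n : ℕ}

/-- The last index `i ≤ k` with `i ≤ |A ∩ [0, i(s+1)-1)| + e`. -/
def hix (s k e : ℕ) (A : Finset (Fin n)) : ℕ :=
  Nat.findGreatest (fun i => i ≤ hc A (i*(s+1)-1) + e) k

theorem hc_erase {C : Finset (Fin n)} {x : Fin n} {m : ℕ} (hx : x ∈ C) (hm : x.val < m) :
    hc (C.erase x) m + 1 = hc C m := by
  classical
  unfold hc
  have h1 : (C.erase x) ∩ pre m = (C ∩ pre m).erase x := by
    ext y; simp only [Finset.mem_inter, Finset.mem_erase]; tauto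
  have h2 : x ∈ C ∩ pre m := Finset.mem_inter.mpr ⟨hx, mem_pre.mpr hm⟩
  rw [h1, Finset.card_erase_of_mem h2]
  have := Finset.card_pos.mpr ⟨x, h2⟩
  omega

theorem hix_spec {s k : ℕ} {C : Finset (Fin n)} (hcard : C.card = k)
    (hex : ∃ i, 1 ≤ i ∧ i ≤ k ∧ i ≤ hc C (i*(s+1)-1)) :
    1 ≤ hix s k 0 C ∧ hix s k 0 C ≤ k ∧
      hc C ((hix s k 0 C)*(s+1)-1) = hix s k 0 C := by
  classical
  obtain ⟨i₀, h1, h2, h3⟩ := hex
  set P : ℕ → Prop := fun i => i ≤ hc C (i*(s+1)-1) + 0 with hP
  have hi : hix s k 0 C = Nat.findGreatest P k := rfl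
  set i := hix s k 0 C with hidef
  have h4 : i₀ ≤ i := by
    rw [hi]
    exact Nat.le_findGreatest h2 (by simpa [hP] using h3)
  have h5 : i ≤ k := by rw [hi]; exact Nat.findGreatest_le k
  have h6 : P i := by
    rw [hi]
    exact Nat.findGreatest_spec (P := P) h2 (by simpa [hP] using h3)
  refine ⟨h1.trans h4, h5, le_antisymm ?_ (by simpa [hP] using h6)⟩
  rcases h5.lt_or_eq with h | h
  · have h7 : ¬ P (i+1) := by
      apply Nat.findGreatest_is_greatest (n := k)
      · rw [← hi]; exact Nat.lt_succ_self _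
      · exact h
    simp only [hP, add_zero, not_le] at h7
    have h8 : hc C (i*(s+1)-1) ≤ hc C ((i+1)*(s+1)-1) := hc_mono C (by
      have : (i+1)*(s+1) = i*(s+1) + (s+1) := by ring
      omega)
    omega
  · have h9 := hc_le_card C (i*(s+1)-1)
    omega

theorem hix_erase {s k : ℕ} {C : Finset (Fin n)} (hcard : C.card = k)
    (hex : ∃ i, 1 ≤ i ∧ i ≤ k ∧ i ≤ hc C (i*(s+1)-1)) {x : Fin n} (hx : x ∈ C)
    (hlt : x.val < (hix s k 0 C)*(s+1)-1) :
    hix s k 1 (C.erase x) = hix s k 0 C := by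
  classical
  obtain ⟨h1, h2, h3⟩ := hix_spec hcard hex
  set i := hix s k 0 C with hidef
  have hi : i = Nat.findGreatest (fun i => i ≤ hc C (i*(s+1)-1) + 0) k := rfl
  unfold hix
  rw [Nat.findGreatest_eq_iff]
  refine ⟨h2, fun _ => ?_, ?_⟩
  · have := hc_erase hx hlt
    omega
  · intro m hm1 hm2 hm3
    have h4 : i*(s+1)-1 ≤ m*(s+1)-1 := by
      have := Nat.mul_le_mul_right (s+1) hm1.le
      omega
    have h5 := hc_erase (m := m*(s+1)-1) hx (by omega)
    have h6 : ¬ (m ≤ hc C (m*(s+1)-1) + 0) := by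
      apply Nat.findGreatest_is_greatest (n := k) (P := fun i => i ≤ hc C (i*(s+1)-1) + 0)
      · rw [← hi]; exact hm1
      · exact hm2
    omega

/-- The weighted shadow inequality. -/
theorem wshadow {F : Finset (Finset (Fin n))} (hF : Shifted F) (s k : ℕ) (hs : 1 ≤ s)
    (hk : 2 ≤ k)
    (hn : k * (s+1) ≤ n) (hnu : NuLe s F) (hU : ∀ A ∈ F, A.card = k)
    (σ : Fin n) (hσ : σ.val = s) (y v : Finset (Fin n) → ℝ) (hv : ∀ H, 0 ≤ v H)
    (hyv : ∀ C ∈ F, ∀ x ∈ C, y C ≤ v (C.erase x)) :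
    (k : ℝ) * ∑ C ∈ F with ∀ x ∈ C, s + 1 ≤ x.val, y C ≤
      ((s:ℝ) * k - s - 1) * ∑ H ∈ powersetCard (k-1) (univ : Finset (Fin n)) with
        ((∀ x ∈ H, s + 1 ≤ x.val) ∧ insert σ H ∈ F), v H := by
  classical
  set HF := F.filter (fun C => ∀ x ∈ C, s + 1 ≤ x.val) with hHF
  set GF := (powersetCard (k-1) (univ : Finset (Fin n))).filter
    (fun H => (∀ x ∈ H, s + 1 ≤ x.val) ∧ insert σ H ∈ F) with hGF
  have hex : ∀ C ∈ HF, ∃ i, 1 ≤ i ∧ i ≤ k ∧ i ≤ hc C (i*(s+1)-1) := by
    intro C hC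
    rw [hHF, Finset.mem_filter] at hC
    exact exists_hit hF s k (by omega) hn hnu hC.1 (hU C hC.1)
  have hcardC : ∀ C ∈ HF, C.card = k := fun C hC => hU C (Finset.mem_filter.mp hC).1
  -- the weights
  let N0 : Finset (Fin n) → ℕ := fun C => (hix s k 0 C)*(s+1)-1
  let N1 : Finset (Fin n) → ℕ := fun H => (hix s k 1 H)*(s+1)-1
  let w : Finset (Fin n) → ℝ := fun H => v H / (hix s k 1 H)
  have hw : ∀ H, 0 ≤ w H := fun H => div_nonneg (hv H) (Nat.cast_nonneg _)
  let GF' := GF.filter (fun H => 1 ≤ hix s k 1 H ∧ hix s k 1 H ≤ k ∧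
    hc H (N1 H) + 1 = hix s k 1 H)
  let X : Finset (Fin n) → Finset (Fin n) := fun H =>
    ((pre (N1 H)) \ (pre (s+1))) \ H
  have step1 : ∀ C ∈ HF, y C ≤ ∑ x ∈ C ∩ pre (N0 C), w (C.erase x) := by
    intro C hC
    obtain ⟨h1, h2, h3⟩ := hix_spec (hcardC C hC) (hex C hC)
    have hpos : (0:ℝ) < (hix s k 0 C : ℝ) := by exact_mod_cast h1
    have h4 : ∀ x ∈ C ∩ pre (N0 C), y C / (hix s k 0 C) ≤ w (C.erase x) := by
      intro x hx
      rw [Finset.mem_inter, mem_pre] at hx
      simp only [w]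
      rw [hix_erase (hcardC C hC) (hex C hC) hx.1 hx.2]
      apply div_le_div_of_nonneg_right _ hpos.le
      exact hyv C (Finset.mem_filter.mp hC).1 x hx.1
    calc y C = ∑ x ∈ C ∩ pre (N0 C), y C / (hix s k 0 C) := by
          rw [Finset.sum_const, nsmul_eq_mul]
          have : (C ∩ pre (N0 C)).card = hix s k 0 C := h3
          rw [this]
          field_simp
      _ ≤ _ := Finset.sum_le_sum h4
  have step2 : ∑ C ∈ HF, ∑ x ∈ C ∩ pre (N0 C), w (C.erase x) ≤
      ∑ H ∈ GF', ∑ x ∈ X H, w H := by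
    rw [Finset.sum_sigma', Finset.sum_sigma']
    let φ : (Σ _ : Finset (Fin n), Fin n) → (Σ _ : Finset (Fin n), Fin n) :=
      fun p => ⟨p.1.erase p.2, p.2⟩
    have hinj : Set.InjOn φ (HF.sigma (fun C => C ∩ pre (N0 C))) := by
      rintro ⟨C, x⟩ hp ⟨D, z⟩ hp' h
      rw [Finset.mem_coe, Finset.mem_sigma] at hp hp'
      simp only [φ, Sigma.mk.injEq, heq_eq_eq] at h
      obtain ⟨h1, rfl⟩ := h
      have hxC : x ∈ C := (Finset.mem_inter.mp hp.2).1
      have hxD : x ∈ D := (Finset.mem_inter.mp hp'.2).1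
      have : C = D := by
        rw [← Finset.insert_erase hxC, h1, Finset.insert_erase hxD]
      rw [this]
    have e1 : ∑ p ∈ HF.sigma (fun C => C ∩ pre (N0 C)), w (p.1.erase p.2) =
        ∑ p ∈ (HF.sigma (fun C => C ∩ pre (N0 C))).image φ, w p.1 := by
      rw [Finset.sum_image hinj]
    rw [e1]
    apply Finset.sum_le_sum_of_subset_of_nonneg
    · intro p hp
      rw [Finset.mem_image] at hp
      obtain ⟨⟨C, x⟩, hCx, rfl⟩ := hp
      rw [Finset.mem_sigma] at hCx
      obtain ⟨hC, hx⟩ := hCx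
      simp only at hC hx
      rw [Finset.mem_inter, mem_pre] at hx
      obtain ⟨h1, h2, h3⟩ := hix_spec (hcardC C hC) (hex C hC)
      have h4 := hix_erase (hcardC C hC) (hex C hC) hx.1 hx.2
      have h5 := hc_erase hx.1 hx.2
      have hN : N1 (C.erase x) = N0 C := by simp only [N1, N0]; rw [h4]
      have hC' := Finset.mem_filter.mp hC
      have hxs := hC'.2 x hx.1
      rw [Finset.mem_sigma]
      refine ⟨?_, ?_⟩
      · simp only [φ, GF']
        rw [Finset.mem_filter, hGF, Finset.mem_filter, Finset.mem_powersetCard, h4, hN]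
        refine ⟨⟨⟨Finset.subset_univ _, ?_⟩, ?_, ?_⟩, h1, h2, ?_⟩
        · rw [Finset.card_erase_of_mem hx.1, hcardC C hC]
        · intro z hz
          exact hC'.2 z (Finset.mem_of_mem_erase hz)
        · apply hF C hC'.1 σ x _ hx.1
          · intro h
            have := hC'.2 σ h
            omega
          · rw [Fin.lt_def]; omega
        · have : hc C (N0 C) = hix s k 0 C := h3
          have h5' : hc (C.erase x) (N0 C) + 1 = hc C (N0 C) := h5
          omega
      · simp only [φ, X]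
        rw [hN, Finset.mem_sdiff, Finset.mem_sdiff, mem_pre, mem_pre]
        exact ⟨⟨hx.2, by omega⟩, Finset.notMem_erase _ _⟩
    · intro p _ _
      exact hw _
  have step3 : ∀ H ∈ GF', (k:ℝ) * ∑ x ∈ X H, w H ≤ ((s:ℝ) * k - s - 1) * v H := by
    intro H hH
    simp only [GF'] at hH
    rw [Finset.mem_filter, hGF, Finset.mem_filter, Finset.mem_powersetCard] at hH
    obtain ⟨⟨⟨_, hc1⟩, hlow, hins⟩, h1, h2, h3⟩ := hH
    set i := hix s k 1 H with hi
    have hpos : (0:ℝ) < (i : ℝ) := by exact_mod_cast h1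
    have hNn : N1 H ≤ n := by
      have : i * (s+1) ≤ k * (s+1) := Nat.mul_le_mul_right _ h2
      simp only [N1]
      rw [← hi]
      omega
    -- `i ≥ 2`
    have hcard : (X H).card + (s + 1) + (i - 1) = N1 H ∨ (X H).card = 0 := by
      by_cases hi2 : s + 1 ≤ N1 H
      · left
        have e1 : (X H).card + (pre (N1 H) ∩ H).card + (s+1) = N1 H := by
          have h5 : (X H) = pre (N1 H) \ (pre (s+1) ∪ (pre (N1 H) ∩ H)) := by
            ext z
            simp only [X, Finset.mem_sdiff, Finset.mem_union, Finset.mem_inter, mem_pre]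
            tauto
          have h6 : (pre (s+1) ∪ (pre (N1 H) ∩ H) : Finset (Fin n)) ⊆ pre (N1 H) := by
            intro z hz
            rw [Finset.mem_union, Finset.mem_inter] at hz
            rcases hz with hz | hz
            · exact pre_mono hi2 hz
            · exact hz.1
          have h7 : (pre (s+1) ∪ (pre (N1 H) ∩ H) : Finset (Fin n)).card =
              (s+1) + (pre (N1 H) ∩ H).card := by
            rw [Finset.card_union_of_disjoint, card_pre (by omega)]
            rw [Finset.disjoint_left]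
            intro z hz hz'
            rw [mem_pre] at hz
            have := hlow z (Finset.mem_inter.mp hz').2
            omega
          have h8 := Finset.card_le_card h6
          rw [h5, Finset.card_sdiff_of_subset h6]
          rw [card_pre hNn] at h8 ⊢
          omega
        have e2 : (pre (N1 H) ∩ H).card = i - 1 := by
          rw [Finset.inter_comm]
          have : (H ∩ pre (N1 H)).card = hc H (N1 H) := rfl
          omega
        omega
      · right
        rw [Finset.card_eq_zero, Finset.eq_empty_iff_forall_notMem]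
        intro z hz
        simp only [X, Finset.mem_sdiff, mem_pre] at hz
        omega
    rw [Finset.sum_const, nsmul_eq_mul]
    simp only [w]
    rw [← hi]
    have hvH := hv H
    rcases hcard with hcard | hcard
    · have hN : N1 H + 1 = i * (s+1) := by
        simp only [N1]
        rw [← hi]
        have : 1 ≤ i * (s+1) := Nat.mul_pos h1 (Nat.succ_pos _)
        omega
      have e3 : ((X H).card : ℝ) = (i:ℝ) * s - s - 1 := by
        have e4 : (X H).card + s + 1 = i * s := by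
          have : i * (s+1) = i * s + i := by ring
          omega
        have e5 : ((X H).card : ℝ) + s + 1 = i * s := by exact_mod_cast e4
        linarith
      rw [e3]
      have e6 : (k:ℝ) * (((i:ℝ) * s - s - 1) * (v H / i)) =
          (k * ((i:ℝ) * s - s - 1) / i) * v H := by ring
      rw [e6]
      apply mul_le_mul_of_nonneg_right _ hvH
      rw [div_le_iff₀ hpos]
      have hik : (i:ℝ) ≤ k := by exact_mod_cast h2
      have hs0 : (0:ℝ) ≤ s := Nat.cast_nonneg _
      nlinarith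
    · rw [hcard]
      simp only [Nat.cast_zero, zero_mul, mul_zero]
      apply mul_nonneg _ hvH
      have h5 : (1:ℝ) ≤ s := by exact_mod_cast hs
      have h6 : (2:ℝ) ≤ k := by exact_mod_cast hk
      nlinarith
  have hcoef : (0:ℝ) ≤ (s:ℝ) * k - s - 1 := by
    have h5 : (1:ℝ) ≤ s := by exact_mod_cast hs
    have h6 : (2:ℝ) ≤ k := by exact_mod_cast hk
    nlinarith
  calc (k : ℝ) * ∑ C ∈ HF, y C ≤ k * ∑ C ∈ HF, ∑ x ∈ C ∩ pre (N0 C), w (C.erase x) :=
        mul_le_mul_of_nonneg_left (Finset.sum_le_sum step1) (Nat.cast_nonneg _)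
    _ ≤ k * ∑ H ∈ GF', ∑ x ∈ X H, w H := mul_le_mul_of_nonneg_left step2 (Nat.cast_nonneg _)
    _ = ∑ H ∈ GF', k * ∑ x ∈ X H, w H := by rw [Finset.mul_sum]
    _ ≤ ∑ H ∈ GF', ((s:ℝ) * k - s - 1) * v H := Finset.sum_le_sum step3
    _ ≤ ∑ H ∈ GF, ((s:ℝ) * k - s - 1) * v H := by
        apply Finset.sum_le_sum_of_subset_of_nonneg (Finset.filter_subset _ _)
        intro H _ _
        exact mul_nonneg hcoef (hv H)
    _ = ((s:ℝ) * k - s - 1) * ∑ H ∈ GF, v H := by rw [Finset.mul_sum]

end Pool.Agent.DPG
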