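import Pool.Agent.DPG.Shadow
import Pool.Agent.DPG.Avg

namespace Pool.Agent.DPG

open Finset DPS

variable {n : ℕ}

/-- The elements that are at least `m`. -/
def hiS (m : ℕ) : Finset (Fin n) := univ.filter (fun x => m ≤ x.val)

theorem mem_hiS {m : ℕ} {x : Fin n} : x ∈ (hiS m : Finset (Fin n)) ↔ m ≤ x.val := by
  simp [hiS]

theorem sum_high (m l : ℕ) (g : Finset (Fin n) → ℝ) :
    ∑ f ∈ powersetCard l (univ : Finset {x : Fin n // m ≤ x.val}),
      g (f.map (Function.Embedding.subtype _)) =
    ∑ H ∈ powersetCard l (hiS m : Finset (Fin n)), g H := by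
  classical
  have h1 : (univ : Finset {x : Fin n // m ≤ x.val}).map (Function.Embedding.subtype _) =
      (hiS m : Finset (Fin n)) := by
    ext x
    simp [mem_hiS]
  rw [← h1, Finset.powersetCard_map, Finset.sum_map]
  rfl

theorem supply (s t q k : ℕ) (ht : 1 ≤ t) (hst : s ≤ t) (htq : t ≤ q)
    (hn : q*(k-1)+s+1 ≤ n) {F : Finset (Finset (Fin n))} (hF : Shifted F) (hnu : NuLe s F)
    (u : Finset (Fin n) → ℝ)
    (hu : ∀ H ⊆ (hiS (s+1) : Finset (Fin n)), H.card = k-1 → 0 < u H)
    (hline : ∀ P ⊆ (hiS (s+1) : Finset (Fin n)), ∀ x ∈ (hiS (s+1) : Finset (Fin n)),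
      ∀ b ∈ (hiS (s+1) : Finset (Fin n)), P.card + 1 = k - 1 → x ∉ P → b ∉ P →
      ((t:ℝ)-1) * u (insert x P) ≤ ((q:ℝ)-1) * u (insert b P))
    (el : ℕ → Fin n) (hel : ∀ j, (el j).val = min j s) :
    ((t:ℝ)-s) * ∑ H ∈ powersetCard (k-1) (hiS (s+1) : Finset (Fin n)) with
        insert (el s) H ∈ F, u H ≤
      ∑ j ∈ range s, ∑ H ∈ powersetCard (k-1) (hiS (s+1) : Finset (Fin n)) with
        insert (el j) H ∉ F, u H := by
  classical
  let em : {x : Fin n // s+1 ≤ x.val} ↪ Fin n := Function.Embedding.subtype _
  have hemsub : ∀ f : Finset {x : Fin n // s+1 ≤ x.val}, f.map em ⊆ hiS (s+1) := by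
    intro f x hx
    rw [Finset.mem_map] at hx
    obtain ⟨y, _, rfl⟩ := hx
    rw [mem_hiS]
    exact y.2
  have helnot : ∀ (j : ℕ) (H : Finset (Fin n)), H ⊆ hiS (s+1) → el j ∉ H := by
    intro j H hH h
    have := hH h
    rw [mem_hiS, hel] at this
    omega
  have hmain := class_sum (β := {x : Fin n // s+1 ≤ x.val}) s t q (k-1) ht hst htq
    (by rw [card_high (by omega)]; omega) (fun f => u (f.map em))
    (by
      intro f hf
      apply hu _ (hemsub f)
      rw [Finset.card_map]; exact hf)
    (by
      intro P x b hP hx hb
      simp only [Finset.map_insert]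
      apply hline
      · exact hemsub P
      · rw [mem_hiS]; exact x.2
      · rw [mem_hiS]; exact b.2
      · rw [Finset.card_map]; exact hP
      · simpa using hx
      · simpa using hb)
    (fun j f => insert (el j) (f.map em) ∈ F)
    (by
      intro a b f hab hbs hf h
      rcases hab.lt_or_eq with hlt | heq
      · have h1 := hF _ h (el a) (el b) (by rw [Fin.lt_def, hel, hel]; omega)
          (Finset.mem_insert_self _ _) (by
            rw [Finset.mem_insert, not_or]
            refine ⟨?_, helnot a _ (hemsub f)⟩
            intro he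
            have := congrArg Fin.val he
            rw [hel, hel] at this
            omega)
        rwa [Finset.erase_insert (helnot b _ (hemsub f))] at h1
      · rw [heq]; exact h)
    (by
      intro H hH hd
      apply nu_fun hnu (fun j : Fin (s+1) => insert (el j) ((H j).map em))
      · intro j; exact (hH j).2
      · intro j; exact ⟨_, Finset.mem_insert_self _ _⟩
      · intro i j hij
        rw [Finset.disjoint_left]
        intro x hx hx'
        rw [Finset.mem_insert] at hx hx'
        rcases hx with rfl | hx
        · rcases hx' with h | h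
          · apply hij
            have := congrArg Fin.val h
            rw [hel, hel] at this
            ext
            have h1 := i.2
            have h2 := j.2
            omega
          · exact helnot _ _ (hemsub _) h
        · rcases hx' with rfl | h
          · exact helnot _ _ (hemsub _) hx
          · rw [Finset.mem_map] at hx h
            obtain ⟨y, hy, rfl⟩ := hx
            obtain ⟨z, hz, hzy⟩ := h
            have := em.injective hzy
            subst this
            exact Finset.disjoint_left.mp (hd i j hij) hy hz)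
  have h2 := sum_high (n := n) (s+1) (k-1) (fun H => u H *
    ((∑ j ∈ range s, if insert (el j) H ∈ F then (1:ℝ) else 0) +
        ((t : ℝ) - s) * (if insert (el s) H ∈ F then 1 else 0) - s))
  have h3 := h2.symm.le.trans hmain
  have h4 : ∀ H ∈ powersetCard (k-1) (hiS (s+1) : Finset (Fin n)), u H *
    ((∑ j ∈ range s, if insert (el j) H ∈ F then (1:ℝ) else 0) +
        ((t : ℝ) - s) * (if insert (el s) H ∈ F then 1 else 0) - s) =
      ((t:ℝ)-s) * (if insert (el s) H ∈ F then u H else 0) -
        ∑ j ∈ range s, (if insert (el j) H ∉ F then u H else 0) := by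
    intro H _
    have e1 : ∑ j ∈ range s, (if insert (el j) H ∉ F then u H else 0) =
        u H * s - u H * ∑ j ∈ range s, (if insert (el j) H ∈ F then (1:ℝ) else 0) := by
      rw [eq_sub_iff_add_eq, Finset.mul_sum, ← Finset.sum_add_distrib]
      calc ∑ j ∈ range s, ((if insert (el j) H ∉ F then u H else 0) +
            u H * (if insert (el j) H ∈ F then (1:ℝ) else 0)) = ∑ j ∈ range s, u H := by
            apply Finset.sum_congr rfl
            intro j _
            by_cases h : insert (el j) H ∈ F <;> simp [h]
        _ = u H * s := by rw [Finset.sum_const, Finset.card_range, nsmul_eq_mul, mul_comm]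
    rw [e1]
    by_cases h : insert (el s) H ∈ F
    · simp only [h, if_true]; ring
    · simp only [h, if_false]; ring
  rw [Finset.sum_congr rfl h4, Finset.sum_sub_distrib, ← Finset.mul_sum, Finset.sum_comm,
    ← Finset.sum_filter] at h3
  simp only [← Finset.sum_filter] at h3
  linarith

end Pool.Agent.DPG
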