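import Pool.Agent.DPG.Emc

namespace Pool.Agent.DPG

open Finset DPS

variable {n : ℕ}

theorem nu_fin {s : ℕ} {F : Finset (Finset (Fin n))} (h : NuLe s F) {ι : Type*} [Fintype ι]
    (hι : s < Fintype.card ι)
    (H : ι → Finset (Fin n)) (hH : ∀ j, H j ∈ F) (hne : ∀ j, (H j).Nonempty)
    (hd : ∀ i j, i ≠ j → Disjoint (H i) (H j)) : False := by
  classical
  have hinj : Function.Injective H := by
    intro i j hij
    by_contra hc
    have := hd i j hc
    rw [hij, disjoint_self] at this
    exact (hne j).ne_empty this
  have h1 := h (univ.image H) (by
    intro A hA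
    rw [Finset.mem_image] at hA
    obtain ⟨j, _, rfl⟩ := hA
    exact hH j) (by
    intro A hA B hB hAB
    rw [Finset.mem_image] at hA hB
    obtain ⟨i, _, rfl⟩ := hA
    obtain ⟨j, _, rfl⟩ := hB
    exact hd i j (fun h => hAB (h ▸ rfl)))
  rw [Finset.card_image_of_injective _ hinj, Finset.card_univ] at h1
  omega

theorem card_hitF (k : ℕ) (S : Finset (Fin n)) :
    (hitF k S).card = n.choose k - (n - S.card).choose k := card_hit k S

theorem sw_insert_left {i j : Fin n} (hij : i ≠ j) {P : Finset (Fin n)} (hi : i ∉ P)
    (hj : j ∉ P) : sw i j (insert i P) = insert j P := by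
  classical
  ext y
  by_cases hy1 : y = i
  · subst hy1; rw [mem_sw_left]; simp [hij, hij.symm, hj, hi]
  · by_cases hy2 : y = j
    · subst hy2; rw [mem_sw_right]; simp
    · rw [mem_sw_other hy1 hy2]; simp [hy1, hy2]

/-- If a shift of `F` is a family `B_T`, so is `F`. -/
theorem unshift_gen (k s : ℕ) (hk : 2 ≤ k) (hs : 1 ≤ s) (hn1 : 3*(k-1)+s+1 ≤ n)
    (hn2 : (s+1)*k ≤ n) (i j : Fin n) (hij : i ≠ j)
    (F : Finset (Finset (Fin n))) (hnu : NuLe s F) (T : Finset (Fin n)) (hT : T.card = s)
    (hx : sh i j F = hitF k T) : ∃ T' : Finset (Fin n), T'.card = s ∧ F = hitF k T' := by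
  classical
  have hfix : ∀ A : Finset (Fin n), (i ∈ A ↔ j ∈ A) → (A ∈ sh i j F ↔ A ∈ F) := by
    intro A h
    rw [mem_sh]
    constructor
    · intro hA
      have h1 := hA.2 (by tauto)
      rw [sw_eq_self h] at h1
      exact h1.elim id id
    · intro hA
      exact ⟨fun h' => absurd (h.mpr h'.1) h'.2, fun _ => Or.inl hA⟩
  -- existence of small sets avoiding a given set
  have hav : ∀ B : Finset (Fin n), B.card + (k-1) ≤ n → ∃ H : Finset (Fin n),
      H.card = k - 1 ∧ Disjoint H B := by
    intro B hB
    have : k - 1 ≤ (univ \ B).card := by
      rw [Finset.card_sdiff_of_subset (Finset.subset_univ _), Finset.card_univ,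
        Fintype.card_fin]
      omega
    obtain ⟨H, hH1, hH2⟩ := Finset.exists_subset_card_eq this
    refine ⟨H, hH2, ?_⟩
    rw [Finset.disjoint_left]
    intro y hy
    exact (Finset.mem_sdiff.mp (hH1 hy)).2
  have hright : ∀ A : Finset (Fin n), A ∈ sh i j F → j ∈ A → i ∉ A →
      A ∈ F ∧ sw i j A ∈ F := by
    intro A hA hj hi
    rw [mem_sh] at hA
    exact hA.1 ⟨hj, hi⟩
  -- pairs with both members in the shifted family
  have hboth : ∀ A : Finset (Fin n), A ∈ sh i j F → sw i j A ∈ sh i j F → A ∈ F := by
    intro A h1 h2
    by_cases h : i ∈ A ↔ j ∈ A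
    · exact (hfix A h).mp h1
    · by_cases hj : j ∈ A
      · have hi : i ∉ A := by tauto
        exact (hright A h1 hj hi).1
      · have hi : i ∈ A := by tauto
        have h3 := (hright _ h2 (mem_sw_right.mpr hi) (fun h => hj (mem_sw_left.mp h))).2
        rwa [sw_sw] at h3
  have hnone : ∀ A : Finset (Fin n), A ∈ F → A ∈ sh i j F ∨ sw i j A ∈ sh i j F := by
    intro A hA
    by_cases h : i ∈ A ↔ j ∈ A
    · left; exact (hfix A h).mpr hA
    · by_cases hj : j ∈ A
      · have hi : i ∉ A := by tauto
        right
        rw [mem_sh]
        exact ⟨fun h' => absurd (mem_sw_left.mpr hj) h'.2, fun _ => Or.inr (by rwa [sw_sw])⟩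
      · left
        rw [mem_sh]
        exact ⟨fun h' => absurd h'.1 hj, fun _ => Or.inl hA⟩
  by_cases hTij : i ∈ T ↔ j ∈ T
  · -- `B_T` is invariant
    have hinv : ∀ A : Finset (Fin n), sw i j A ∈ hitF k T ↔ A ∈ hitF k T := by
      intro A
      rw [mem_hitF, mem_hitF, card_sw]
      have h1 : Disjoint (sw i j A) T ↔ Disjoint A T := by
        constructor
        · intro h
          have := disj_sw (i := i) (j := j) h
          rwa [sw_sw, sw_eq_self hTij] at this
        · intro h
          have := disj_sw (i := i) (j := j) h
          rwa [sw_eq_self hTij] at this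
      rw [h1]
    refine ⟨T, hT, ?_⟩
    ext A
    constructor
    · intro hA
      rcases hnone A hA with h | h
      · rwa [hx] at h
      · rw [hx, hinv] at h; exact h
    · intro hA
      apply hboth A
      · rw [hx]; exact hA
      · rw [hx, hinv]; exact hA
  · have hcardF : F.card = (hitF k T).card := by rw [← hx, card_sh]
    by_cases hiT : i ∈ T
    · have hjT : j ∉ T := by tauto
      -- every `P` has a colour
      have hcol : ∀ P : Finset (Fin n), P.card = k-1 → Disjoint P T → j ∉ P →
          (insert i P ∈ F ∨ insert j P ∈ F) := by
        intro P hP hPT hjP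
        have hiP : i ∉ P := fun h => Finset.disjoint_left.mp hPT h hiT
        have h1 : insert i P ∈ sh i j F := by
          rw [hx, mem_hitF, Finset.card_insert_of_notMem hiP]
          refine ⟨by omega, ?_⟩
          rw [Finset.not_disjoint_iff]
          exact ⟨i, Finset.mem_insert_self _ _, hiT⟩
        rw [mem_sh] at h1
        have h4 := h1.2 (fun h => h.2 (Finset.mem_insert_self _ _))
        rwa [sw_insert_left hij hiP hjP] at h4
      -- disjoint sets with different colours are impossible
      have hdif : ∀ P P' : Finset (Fin n), P.card = k-1 → P'.card = k-1 → Disjoint P T →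
          Disjoint P' T → j ∉ P → j ∉ P' → Disjoint P P' → insert i P ∈ F →
          insert j P' ∈ F → False := by
        intro P P' hP hP' hPT hPT' hjP hjP' hPP h1 h2
        have hiP : i ∉ P := fun h => Finset.disjoint_left.mp hPT h hiT
        have hiP' : i ∉ P' := fun h => Finset.disjoint_left.mp hPT' h hiT
        set W : Finset (Fin n) := insert j (T ∪ P ∪ P') with hW
        have hWcard : W.card ≤ s + 1 + 2*(k-1) := by
          have a1 := Finset.card_insert_le j (T ∪ P ∪ P')
          have a2 := Finset.card_union_le (T ∪ P) P'
          have a3 := Finset.card_union_le T P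
          rw [hW]
          omega
        have hTe : (T.erase i).card = s - 1 := by
          rw [Finset.card_erase_of_mem hiT, hT]
        have hemb : Nonempty ({a // a ∈ T.erase i} × Fin (k-1) ↪ {x // x ∈ univ \ W}) := by
          apply Function.Embedding.nonempty_of_card_le
          rw [Fintype.card_prod, Fintype.card_coe, Fintype.card_coe, Fintype.card_fin, hTe,
            Finset.card_sdiff_of_subset (Finset.subset_univ _), Finset.card_univ,
            Fintype.card_fin]
          obtain ⟨m, rfl⟩ : ∃ m, k = m+1 := ⟨k-1, by omega⟩
          obtain ⟨s', rfl⟩ : ∃ s', s = s'+1 := ⟨s-1, by omega⟩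
          simp only [Nat.add_sub_cancel] at hWcard ⊢
          have a4 : (s'+1+1)*(m+1) = s'*m + (s'+1+1+2*m) := by ring
          omega
        obtain ⟨e⟩ := hemb
        let Hs : {a // a ∈ T.erase i} → Finset (Fin n) := fun a =>
          univ.image (fun b : Fin (k-1) => (e (a, b)).1)
        have hHsW : ∀ a, ∀ x ∈ Hs a, x ∉ W := by
          intro a x hx'
          simp only [Hs, Finset.mem_image, Finset.mem_univ, true_and] at hx'
          obtain ⟨b, rfl⟩ := hx'
          exact (Finset.mem_sdiff.mp (e (a, b)).2).2
        have hHscard : ∀ a, (Hs a).card = k-1 := by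
          intro a
          simp only [Hs]
          rw [Finset.card_image_of_injective, Finset.card_univ, Fintype.card_fin]
          intro b b' hb
          have := e.injective (Subtype.ext hb)
          simpa using this
        have hHsd : ∀ a a', a ≠ a' → Disjoint (Hs a) (Hs a') := by
          intro a a' haa
          rw [Finset.disjoint_left]
          intro x hx1 hx2
          simp only [Hs, Finset.mem_image, Finset.mem_univ, true_and] at hx1 hx2
          obtain ⟨b, rfl⟩ := hx1
          obtain ⟨b', hb'⟩ := hx2
          have := e.injective (Subtype.ext hb')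
          simp only [Prod.mk.injEq] at this
          exact haa this.1.symm
        have hWj : j ∈ W := Finset.mem_insert_self _ _
        have hWT : ∀ x ∈ T, x ∈ W := fun x hx => by simp [hW, hx]
        have hWP : ∀ x ∈ P, x ∈ W := fun x hx => by simp [hW, hx]
        have hWP' : ∀ x ∈ P', x ∈ W := fun x hx => by simp [hW, hx]
        let H : Bool ⊕ {a // a ∈ T.erase i} → Finset (Fin n) := fun z =>
          match z with
          | Sum.inl true => insert i P
          | Sum.inl false => insert j P'
          | Sum.inr a => insert a.1 (Hs a)
        have haT : ∀ a : {a // a ∈ T.erase i}, a.1 ≠ i ∧ a.1 ∈ T := fun a =>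
          Finset.mem_erase.mp a.2
        have d1 : Disjoint (insert i P) (insert j P') := by
          rw [Finset.disjoint_left]
          intro x hx1 hx2
          rw [Finset.mem_insert] at hx1 hx2
          rcases hx1 with rfl | hx1
          · rcases hx2 with h | h
            · exact hij h
            · exact hiP' h
          · rcases hx2 with rfl | h
            · exact hjP hx1
            · exact Finset.disjoint_left.mp hPP hx1 h
        have d2 : ∀ a : {a // a ∈ T.erase i}, Disjoint (insert i P) (insert a.1 (Hs a)) := by
          intro a
          rw [Finset.disjoint_left]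
          intro x hx1 hx2
          rw [Finset.mem_insert] at hx1 hx2
          rcases hx1 with rfl | hx1
          · rcases hx2 with h | h
            · exact (haT a).1 h.symm
            · exact hHsW a _ h (hWT _ hiT)
          · rcases hx2 with rfl | h
            · exact Finset.disjoint_left.mp hPT hx1 (haT a).2
            · exact hHsW a _ h (hWP _ hx1)
        have d3 : ∀ a : {a // a ∈ T.erase i}, Disjoint (insert j P') (insert a.1 (Hs a)) := by
          intro a
          rw [Finset.disjoint_left]
          intro x hx1 hx2
          rw [Finset.mem_insert] at hx1 hx2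
          rcases hx1 with rfl | hx1
          · rcases hx2 with h | h
            · exact hjT (h ▸ (haT a).2)
            · exact hHsW a _ h hWj
          · rcases hx2 with rfl | h
            · exact Finset.disjoint_left.mp hPT' hx1 (haT a).2
            · exact hHsW a _ h (hWP' _ hx1)
        have d4 : ∀ a a' : {a // a ∈ T.erase i}, a ≠ a' →
            Disjoint (insert a.1 (Hs a)) (insert a'.1 (Hs a')) := by
          intro a a' haa
          rw [Finset.disjoint_left]
          intro x hx1 hx2
          rw [Finset.mem_insert] at hx1 hx2
          rcases hx1 with rfl | hx1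
          · rcases hx2 with h | h
            · exact haa (Subtype.ext h)
            · exact hHsW a' _ h (hWT _ (haT a).2)
          · rcases hx2 with rfl | h
            · exact hHsW a _ hx1 (hWT _ (haT a').2)
            · exact Finset.disjoint_left.mp (hHsd a a' haa) hx1 h
        apply nu_fin hnu (ι := Bool ⊕ {a // a ∈ T.erase i}) _ H
        · rintro ((_ | _) | a)
          · exact h2
          · exact h1
          · have hiA : i ∉ insert a.1 (Hs a) := by
              rw [Finset.mem_insert, not_or]
              exact ⟨(haT a).1.symm, fun h => hHsW a _ h (hWT _ hiT)⟩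
            have hjA : j ∉ insert a.1 (Hs a) := by
              rw [Finset.mem_insert, not_or]
              exact ⟨fun h => hjT (h ▸ (haT a).2), fun h => hHsW a _ h hWj⟩
            change insert a.1 (Hs a) ∈ F
            rw [← hfix _ (by simp only [hiA, hjA]), hx, mem_hitF]
            refine ⟨?_, ?_⟩
            · rw [Finset.card_insert_of_notMem (fun h => hHsW a _ h (hWT _ (haT a).2)),
                hHscard]
              omega
            · rw [Finset.not_disjoint_iff]
              exact ⟨a.1, Finset.mem_insert_self _ _, (haT a).2⟩
        · rintro ((_ | _) | a)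
          · exact ⟨_, Finset.mem_insert_self _ _⟩
          · exact ⟨_, Finset.mem_insert_self _ _⟩
          · exact ⟨_, Finset.mem_insert_self _ _⟩
        · rintro ((_ | _) | a) ((_ | _) | a') hne
          · exact absurd rfl hne
          · exact d1.symm
          · exact d3 a'
          · exact d1
          · exact absurd rfl hne
          · exact d2 a'
          · exact (d3 a).symm
          · exact (d2 a).symm
          · exact d4 a a' (fun h => hne (h ▸ rfl))
        · rw [Fintype.card_sum, Fintype.card_bool, Fintype.card_coe, hTe]
          omega
      have hdich : (∀ P : Finset (Fin n), P.card = k-1 → Disjoint P T → j ∉ P →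
            insert i P ∈ F) ∨
          (∀ P : Finset (Fin n), P.card = k-1 → Disjoint P T → j ∉ P → insert j P ∈ F) := by
        by_contra hcon
        push Not at hcon
        obtain ⟨⟨P1, hc1, hT1, hj1, hn1'⟩, ⟨P2, hc2, hT2, hj2, hn2'⟩⟩ := hcon
        have hf1 : insert j P1 ∈ F := (hcol P1 hc1 hT1 hj1).resolve_left hn1'
        have hf2 : insert i P2 ∈ F := (hcol P2 hc2 hT2 hj2).resolve_right hn2'
        obtain ⟨P3, hc3, hd3⟩ := hav (insert j (T ∪ P1 ∪ P2)) (by
          have a1 := Finset.card_insert_le j (T ∪ P1 ∪ P2)
          have a2 := Finset.card_union_le (T ∪ P1) P2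
          have a3 := Finset.card_union_le T P1
          omega)
        rw [Finset.disjoint_left] at hd3
        have hT3 : Disjoint P3 T := by
          rw [Finset.disjoint_left]
          intro y hy hy'
          exact hd3 hy (by simp [hy'])
        have hj3 : j ∉ P3 := fun h => hd3 h (by simp)
        have h31 : Disjoint P3 P1 := by
          rw [Finset.disjoint_left]
          intro y hy hy'
          exact hd3 hy (by simp [hy'])
        have h32 : Disjoint P3 P2 := by
          rw [Finset.disjoint_left]
          intro y hy hy'
          exact hd3 hy (by simp [hy'])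
        rcases hcol P3 hc3 hT3 hj3 with h | h
        · exact hdif P3 P1 hc3 hc1 hT3 hT1 hj3 hj1 h31 h hf1
        · exact hdif P2 P3 hc2 hc3 hT2 hT3 hj2 hj3 h32.symm hf2 h
      rcases hdich with hd | hd
      · refine ⟨T, hT, (Finset.eq_of_subset_of_card_le ?_ hcardF.le).symm⟩
        intro A hA
        have hA' : A ∈ sh i j F := by rw [hx]; exact hA
        by_cases h : i ∈ A ↔ j ∈ A
        · exact (hfix A h).mp hA'
        · by_cases hj : j ∈ A
          · exact (hright A hA' hj (by tauto)).1
          · have hi : i ∈ A := by tauto
            by_cases hPT : Disjoint (A.erase i) T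
            · rw [← Finset.insert_erase hi]
              rw [mem_hitF] at hA
              apply hd _ _ hPT
              · exact fun h => hj (Finset.mem_of_mem_erase h)
              · rw [Finset.card_erase_of_mem hi, hA.1]
            · apply hboth A hA'
              rw [hx, mem_hitF, card_sw]
              rw [mem_hitF] at hA
              refine ⟨hA.1, ?_⟩
              rw [Finset.not_disjoint_iff] at hPT ⊢
              obtain ⟨x, hx1, hx2⟩ := hPT
              rw [Finset.mem_erase] at hx1
              refine ⟨x, ?_, hx2⟩
              rw [mem_sw_other hx1.1 (by rintro rfl; exact hjT hx2)]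
              exact hx1.2
      · have hT'card : (insert j (T.erase i)).card = s := by
          rw [Finset.card_insert_of_notMem (fun h => hjT (Finset.mem_of_mem_erase h)),
            Finset.card_erase_of_mem hiT, hT]
          omega
        refine ⟨insert j (T.erase i), hT'card, (Finset.eq_of_subset_of_card_le ?_ ?_).symm⟩
        · intro A hA
          rw [mem_hitF, Finset.not_disjoint_iff] at hA
          obtain ⟨hAc, x, hxA, hxT⟩ := hA
          rw [Finset.mem_insert, Finset.mem_erase] at hxT
          by_cases hi : i ∈ A
          · by_cases hj : j ∈ A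
            · apply (hfix A (by simp [hi, hj])).mp
              rw [hx, mem_hitF, Finset.not_disjoint_iff]
              exact ⟨hAc, i, hi, hiT⟩
            · have hxT' : x ≠ i ∧ x ∈ T := by
                rcases hxT with h | h
                · exact absurd (h ▸ hxA) hj
                · exact h
              have h1 : sw i j A ∈ sh i j F := by
                rw [hx, mem_hitF, card_sw, Finset.not_disjoint_iff]
                refine ⟨hAc, x, ?_, hxT'.2⟩
                rw [mem_sw_other hxT'.1 (by rintro rfl; exact hjT hxT'.2)]
                exact hxA
              have h2 := (hright _ h1 (mem_sw_right.mpr hi)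
                (fun h => hj (mem_sw_left.mp h))).2
              rwa [sw_sw] at h2
          · by_cases hj : j ∈ A
            · by_cases hAT : Disjoint A T
              · rw [← Finset.insert_erase hj]
                apply hd
                · rw [Finset.card_erase_of_mem hj, hAc]
                · exact Finset.disjoint_of_subset_left (Finset.erase_subset _ _) hAT
                · exact Finset.notMem_erase _ _
              · exact (hright A (by rw [hx, mem_hitF]; exact ⟨hAc, hAT⟩) hj hi).1
            · have hxT' : x ≠ i ∧ x ∈ T := by
                rcases hxT with h | h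
                · exact absurd (h ▸ hxA) hj
                · exact h
              apply (hfix A (by simp [hi, hj])).mp
              rw [hx, mem_hitF, Finset.not_disjoint_iff]
              exact ⟨hAc, x, hxA, hxT'.2⟩
        · rw [hcardF, card_hitF, card_hitF, hT, hT'card]
    · have hjT : j ∈ T := by tauto
      exfalso
      obtain ⟨P, hP1, hP2⟩ := hav (insert i T) (by
        have a1 := Finset.card_insert_le i T
        omega)
      have hPT : Disjoint P T :=
        Finset.disjoint_of_subset_right (Finset.subset_insert _ _) hP2
      have hiP : i ∉ P := fun h => Finset.disjoint_left.mp hP2 h (Finset.mem_insert_self _ _)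
      have hjP : j ∉ P := fun h => Finset.disjoint_left.mp hPT h hjT
      have h1 : insert j P ∈ sh i j F := by
        rw [hx, mem_hitF, Finset.card_insert_of_notMem hjP]
        refine ⟨by omega, ?_⟩
        rw [Finset.not_disjoint_iff]
        exact ⟨j, Finset.mem_insert_self _ _, hjT⟩
      have h2 := (hright _ h1 (Finset.mem_insert_self _ _) (by simp [hij, hiP])).2
      have h3 : sw i j (insert j P) = insert i P := by
        rw [← sw_insert_left hij hiP hjP, sw_sw]
      rw [h3] at h2
      have h4 : insert i P ∈ sh i j F := by
        rw [mem_sh]
        exact ⟨fun h => absurd (Finset.mem_insert_self _ _) h.2, fun _ => Or.inl h2⟩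
      rw [hx, mem_hitF, Finset.not_disjoint_iff] at h4
      obtain ⟨_, x, hx1, hx2⟩ := h4
      rw [Finset.mem_insert] at hx1
      rcases hx1 with rfl | hx1
      · exact hiT hx2
      · exact Finset.disjoint_left.mp hPT hx1 hx2

end Pool.Agent.DPG
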